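import Pool.Agent.H.MP_827d9d_co.Vectors

/-!
Moves and determination lemmas.
-/

namespace Pool.Agent.H.MP_827d9d_co

open El

variable {V : Type} {C : Set (El → V)}

lemma mem_span_pair_of {u v w : Fin 4 → ℚ} (a b : ℚ) (h : w = a • u + b • v) :
    w ∈ Submodule.span ℚ ({u, v} : Set (Fin 4 → ℚ)) := by
  rw [Submodule.mem_span_pair]
  exact ⟨a, b, h.symm⟩

lemma move1 (h1 : P1 C) (s : Fin 4) {c c' : El → V} (hc : c ∈ C) (hc' : c' ∈ C) :
    ∃ c'' ∈ C, c'' (rho 0 s) = c' (rho 0 s) ∧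
      ∀ e, e ≠ rho 0 s → e ≠ rho 1 s → e ≠ tt 0 → c'' e = c e := by
  obtain ⟨c'', h, h', h''⟩ := h1 (rho 0 s) {rho 1 s, tt 0} (by simp) (by
    rw [Set.image_pair]
    refine mem_span_pair_of 1 1 ?_
    ext k; fin_cases k <;> simp [vec]) c hc c' hc'
  exact ⟨c'', h, h', fun e h1 h2 h3 => h'' e (by simp [h2, h3]) h1⟩

lemma move1t (h1 : P1 C) (s : Fin 4) {c c' : El → V} (hc : c ∈ C) (hc' : c' ∈ C) :
    ∃ c'' ∈ C, c'' (tt 0) = c' (tt 0) ∧
      ∀ e, e ≠ rho 0 s → e ≠ rho 1 s → e ≠ tt 0 → c'' e = c e := by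
  obtain ⟨c'', h, h', h''⟩ := h1 (tt 0) {rho 0 s, rho 1 s} (by simp) (by
    rw [Set.image_pair]
    refine mem_span_pair_of 1 (-1) ?_
    ext k; fin_cases k <;> simp [vec]) c hc c' hc'
  exact ⟨c'', h, h', fun e h1 h2 h3 => h'' e (by simp [h1, h2]) h3⟩

lemma move2 (h1 : P1 C) (i : Fin 4) {c c' : El → V} (hc : c ∈ C) (hc' : c' ∈ C) :
    ∃ c'' ∈ C, c'' (rho 0 i) = c' (rho 0 i) ∧
      ∀ e, e ≠ rho 0 i → e ≠ rho 2 i → e ≠ tt 1 → c'' e = c e := by
  obtain ⟨c'', h, h', h''⟩ := h1 (rho 0 i) {rho 2 i, tt 1} (by simp) (by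
    rw [Set.image_pair]
    refine mem_span_pair_of 1 1 ?_
    ext k; fin_cases k <;> simp [vec]) c hc c' hc'
  exact ⟨c'', h, h', fun e h1 h2 h3 => h'' e (by simp [h2, h3]) h1⟩

lemma move3 (h1 : P1 C) (i j k : Fin 4) (hij : i ≠ j) (hik : i ≠ k) (hjk : j ≠ k) {c c' : El → V}
    (hc : c ∈ C) (hc' : c' ∈ C) :
    ∃ c'' ∈ C, c'' (rho 0 i) = c' (rho 0 i) ∧
      ∀ e, e ≠ rho 0 i → e ≠ rho 0 j → e ≠ rho 0 k → c'' e = c e := by
  have hne : ((j : ℕ) : ℚ) - ((k : ℕ) : ℚ) ≠ 0 := by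
    intro h
    apply hjk
    have : ((j : ℕ) : ℚ) = ((k : ℕ) : ℚ) := by linarith
    exact Fin.ext (by exact_mod_cast this)
  obtain ⟨c'', h, h', h''⟩ := h1 (rho 0 i) {rho 0 j, rho 0 k} (by simp [hij, hik]) (by
    rw [Set.image_pair]
    refine mem_span_pair_of ((((i : ℕ) : ℚ) - (k : ℕ)) / ((j : ℕ) - (k : ℕ)))
      ((((j : ℕ) : ℚ) - (i : ℕ)) / ((j : ℕ) - (k : ℕ))) ?_
    ext m; fin_cases m <;> simp [vec] <;> field_simp <;> ring) c hc c' hc'
  exact ⟨c'', h, h', fun e h1 h2 h3 => h'' e (by simp [h2, h3]) h1⟩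

/-- The star relation: `t` is determined. -/
lemma det_t (h2 : P2 C) {c c' : El → V} (hc : c ∈ C) (hc' : c' ∈ C)
    (hx : ∀ s, c (rho 0 s) = c' (rho 0 s)) (hu : c (tt 1) = c' (tt 1)) :
    c (tt 0) = c' (tt 0) := by
  refine h2 (LinearMap.proj 1) (tt 0) (by simp [vec]) c hc c' hc' ?_
  intro e he hφ
  cases e with
  | base => simp [vec] at hφ
  | rho i s =>
    by_cases hi : i = 0
    · subst hi; exact hx s
    · simp [vec, hi] at hφ
  | tt j =>
    fin_cases j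
    · exact absurd rfl he
    · exact hu

/-- The star relation: `u` is determined. -/
lemma det_u (h2 : P2 C) {c c' : El → V} (hc : c ∈ C) (hc' : c' ∈ C)
    (hx : ∀ s, c (rho 0 s) = c' (rho 0 s)) (ht : c (tt 0) = c' (tt 0)) :
    c (tt 1) = c' (tt 1) := by
  refine h2 (LinearMap.proj 1) (tt 1) (by simp [vec]) c hc c' hc' ?_
  intro e he hφ
  cases e with
  | base => simp [vec] at hφ
  | rho i s =>
    by_cases hi : i = 0
    · subst hi; exact hx s
    · simp [vec, hi] at hφ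
  | tt j =>
    fin_cases j
    · exact ht
    · exact absurd rfl he

/-- The star relation: `x s` is determined. -/
lemma det_x (h2 : P2 C) (s : Fin 4) {c c' : El → V} (hc : c ∈ C) (hc' : c' ∈ C)
    (hx : ∀ j, j ≠ s → c (rho 0 j) = c' (rho 0 j)) (ht : c (tt 0) = c' (tt 0))
    (hu : c (tt 1) = c' (tt 1)) :
    c (rho 0 s) = c' (rho 0 s) := by
  refine h2 (LinearMap.proj 1) (rho 0 s) (by simp [vec]) c hc c' hc' ?_
  intro e he hφ
  cases e with
  | base => simp [vec] at hφ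
  | rho i s' =>
    by_cases hi : i = 0
    · subst hi; exact hx s' (by rintro rfl; exact he rfl)
    · simp [vec, hi] at hφ
  | tt j =>
    fin_cases j
    · exact ht
    · exact hu

/-- The mixed relation. -/
lemma det_mix (h2 : P2 C) {i s : Fin 4} (his : i ≠ s) {c c' : El → V} (hc : c ∈ C) (hc' : c' ∈ C)
    (hy : c base = c' base)
    (hx : ∀ j, j ≠ i → c (rho 0 j) = c' (rho 0 j))
    (hz : ∀ j, j ≠ s → c (rho 1 j) = c' (rho 1 j))
    (hr : ∀ j, j ≠ i → c (rho 2 j) = c' (rho 2 j)) :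
    c (tt 0) = c' (tt 0) := by
  have hne : ((i : ℕ) : ℚ) - ((s : ℕ) : ℚ) ≠ 0 := by
    intro h
    apply his
    have : ((i : ℕ) : ℚ) = ((s : ℕ) : ℚ) := by linarith
    exact Fin.ext (by exact_mod_cast this)
  refine h2 (LinearMap.proj 0 + ((i : ℕ) : ℚ) • LinearMap.proj 1 + ((s : ℕ) : ℚ) • LinearMap.proj 2
    + ((i : ℕ) : ℚ) • LinearMap.proj 3) (tt 0) ?_ c hc c' hc' ?_
  · simp [vec]
    intro h; apply hne; linarith
  · intro e he hφ
    cases e with
    | base => exact hy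
    | rho k j =>
      fin_cases k
      · refine hx j ?_
        rintro rfl
        simp [vec] at hφ
      · refine hz j ?_
        rintro rfl
        simp [vec] at hφ
      · refine hr j ?_
        rintro rfl
        simp [vec] at hφ
    | tt j =>
      fin_cases j
      · exact absurd rfl he
      · simp [vec] at hφ

/-- On the long line: everything is determined outside one element. -/
lemma det_line (h2 : P2 C) {k l : Fin 4} (hkl : k ≠ l) {c c' : El → V} (hc : c ∈ C) (hc' : c' ∈ C)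
    (h : ∀ e, e ≠ rho 0 k → e ≠ rho 0 l → c e = c' e) :
    c (rho 0 k) = c' (rho 0 k) := by
  have hne : ((l : ℕ) : ℚ) - ((k : ℕ) : ℚ) ≠ 0 := by
    intro h
    apply hkl
    have : ((k : ℕ) : ℚ) = ((l : ℕ) : ℚ) := by linarith
    exact Fin.ext (by exact_mod_cast this)
  refine h2 (LinearMap.proj 0 + ((l : ℕ) : ℚ) • LinearMap.proj 1) (rho 0 k) ?_ c hc c' hc' ?_
  · simp [vec]
    intro h; apply hne; linarith
  · intro e he hφ
    refine h e he ?_
    rintro rfl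
    simp [vec] at hφ

end Pool.Agent.H.MP_827d9d_co
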