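import Pool.Agent.H.MP_827d9d_co.Core1

/-!
The translation relations on the values of `t`.
-/

namespace Pool.Agent.H.MP_827d9d_co

open El

variable {V : Type} {C : Set (El → V)}

lemma step (h1 : P1 C) (h2 : P2 C) {i s : Fin 4} (his : i ≠ s) {c ct c' ct' : El → V}
    (hc : c ∈ C) (hct : ct ∈ C) (hc' : c' ∈ C) (hct' : ct' ∈ C)
    (hcct : ∀ e, e ≠ rho 0 i → e ≠ rho 2 i → e ≠ tt 1 → ct e = c e)
    (hb : c' (rho 0 s) = ct' (rho 0 s))
    (hx : ∀ j, j ≠ s → c' (rho 0 j) = c (rho 0 j)) (hu : c' (tt 1) = c (tt 1))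
    (hx' : ∀ j, j ≠ s → ct' (rho 0 j) = ct (rho 0 j)) (hu' : ct' (tt 1) = ct (tt 1)) :
    c' (tt 0) = ct' (tt 0) := by
  obtain ⟨m, hm, hms, hmo⟩ := move1 h1 s hc hc'
  obtain ⟨n, hn, hns, hno⟩ := move1 h1 s hct hct'
  have e1 : m (tt 0) = c' (tt 0) := by
    refine det_t h2 hm hc' ?_ ?_
    · intro j
      by_cases hj : j = s
      · subst hj; exact hms
      · rw [hx j hj]; exact hmo _ (by simp [hj]) (by simp) (by simp)
    · rw [hu]; exact hmo _ (by simp) (by simp) (by simp)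
  have e2 : n (tt 0) = ct' (tt 0) := by
    refine det_t h2 hn hct' ?_ ?_
    · intro j
      by_cases hj : j = s
      · subst hj; exact hns
      · rw [hx' j hj]; exact hno _ (by simp [hj]) (by simp) (by simp)
    · rw [hu']; exact hno _ (by simp) (by simp) (by simp)
  rw [← e1, ← e2]
  refine det_mix h2 his hm hn ?_ ?_ ?_ ?_
  · rw [hmo _ (by simp) (by simp) (by simp), hno _ (by simp) (by simp) (by simp),
      hcct _ (by simp) (by simp) (by simp)]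
  · intro j hj
    by_cases hjs : j = s
    · subst hjs; rw [hms, hns, hb]
    · rw [hmo _ (by simp [hjs]) (by simp) (by simp), hno _ (by simp [hjs]) (by simp) (by simp),
        hcct _ (by simp [hj]) (by simp) (by simp)]
  · intro j hj
    rw [hmo _ (by simp) (by simp [hj]) (by simp), hno _ (by simp) (by simp [hj]) (by simp),
        hcct _ (by simp) (by simp) (by simp)]
  · intro j hj
    rw [hmo _ (by simp) (by simp) (by simp), hno _ (by simp) (by simp) (by simp),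
        hcct _ (by simp) (by simp [hj]) (by simp)]

lemma star (h1 : P1 C) (h2 : P2 C) (s : Fin 4) {c1 c2 c1' c2' : El → V}
    (hc1 : c1 ∈ C) (hc2 : c2 ∈ C) (hc1' : c1' ∈ C) (hc2' : c2' ∈ C)
    (hs : c1 (rho 0 s) = c2 (rho 0 s)) (ht : c1 (tt 0) = c2 (tt 0))
    (hs' : c1' (rho 0 s) = c2' (rho 0 s))
    (hx1 : ∀ j, j ≠ s → c1' (rho 0 j) = c1 (rho 0 j)) (hu1 : c1' (tt 1) = c1 (tt 1))
    (hx2 : ∀ j, j ≠ s → c2' (rho 0 j) = c2 (rho 0 j)) (hu2 : c2' (tt 1) = c2 (tt 1)) :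
    c1' (tt 0) = c2' (tt 0) := by
  have key : ∀ I : Finset (Fin 4), s ∉ I → ∃ c3 ∈ C,
      (∀ j ∈ I, c3 (rho 0 j) = c2 (rho 0 j)) ∧ (∀ j, j ∉ I → c3 (rho 0 j) = c1 (rho 0 j)) ∧
      c3 (tt 0) = c1 (tt 0) ∧
      (∀ c3' ∈ C, c3' (rho 0 s) = c1' (rho 0 s) → (∀ j, j ≠ s → c3' (rho 0 j) = c3 (rho 0 j)) →
        c3' (tt 1) = c3 (tt 1) → c3' (tt 0) = c1' (tt 0)) := by
    intro I
    induction I using Finset.induction_on with
    | empty =>
      intro _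
      refine ⟨c1, hc1, by simp, by simp, rfl, ?_⟩
      intro c3' hc3' ha hb hd
      refine det_t h2 hc3' hc1' ?_ ?_
      · intro j
        by_cases hj : j = s
        · subst hj; exact ha
        · rw [hb j hj, hx1 j hj]
      · rw [hd, hu1]
    | insert i I hi ih =>
      intro hsI
      have hsi : i ≠ s := by
        rintro rfl; exact hsI (Finset.mem_insert_self _ _)
      have hsI' : s ∉ I := fun h => hsI (Finset.mem_insert_of_mem h)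
      obtain ⟨c3, hc3, h3a, h3b, h3t, h3⟩ := ih hsI'
      obtain ⟨c4, hc4, h4i, h4o⟩ := move2 h1 i hc3 hc2
      refine ⟨c4, hc4, ?_, ?_, ?_, ?_⟩
      · intro j hj
        rcases Finset.mem_insert.1 hj with rfl | hjI
        · exact h4i
        · rw [← h3a j hjI]
          refine h4o _ ?_ (by simp) (by simp)
          rintro h
          have : j = i := by simpa using h
          subst this
          exact hi hjI
      · intro j hj
        have hji : j ≠ i := by rintro rfl; exact hj (Finset.mem_insert_self _ _)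
        have hjI : j ∉ I := fun h => hj (Finset.mem_insert_of_mem h)
        rw [← h3b j hjI]
        exact h4o _ (by simp [hji]) (by simp) (by simp)
      · rw [← h3t]
        exact h4o _ (by simp) (by simp) (by simp)
      · intro c4' hc4' ha hb hd
        obtain ⟨c3', hc3', h3s, h3'o⟩ := move1 h1 s hc3 hc1'
        have e1 : c3' (tt 0) = c1' (tt 0) :=
          h3 c3' hc3' h3s (fun j hj => h3'o _ (by simp [hj]) (by simp) (by simp))
            (h3'o _ (by simp) (by simp) (by simp))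
        rw [← e1]
        symm
        refine step h1 h2 hsi hc3 hc4 hc3' hc4' h4o ?_ ?_ ?_ hb hd
        · rw [h3s, ha]
        · exact fun j hj => h3'o _ (by simp [hj]) (by simp) (by simp)
        · exact h3'o _ (by simp) (by simp) (by simp)
  obtain ⟨c3, hc3, h3a, h3b, h3t, h3⟩ := key (Finset.univ.erase s) (by simp)
  have hx3 : ∀ j, c3 (rho 0 j) = c2 (rho 0 j) := by
    intro j
    by_cases hj : j = s
    · subst hj; rw [h3b j (by simp), hs]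
    · exact h3a j (by simp [hj])
  have hu3 : c3 (tt 1) = c2 (tt 1) := det_u h2 hc3 hc2 hx3 (by rw [h3t, ht])
  symm
  refine h3 c2' hc2' hs'.symm ?_ ?_
  · intro j hj
    rw [hx2 j hj, hx3 j]
  · rw [hu2, hu3]

/-- The translation relation. -/
def R (C : Set (El → V)) (s : Fin 4) (a b τ τ' : V) : Prop :=
  ∃ c ∈ C, ∃ c' ∈ C, c (rho 0 s) = a ∧ c' (rho 0 s) = b ∧
    (∀ j, j ≠ s → c' (rho 0 j) = c (rho 0 j)) ∧ c' (tt 1) = c (tt 1) ∧ c (tt 0) = τ ∧ c' (tt 0) = τ'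

/-- The values of a coordinate. -/
def Val (C : Set (El → V)) (e : El) : Set V := {a | ∃ c ∈ C, c e = a}

lemma exists_single (h1 : P1 C) (hne : C.Nonempty) (s : Fin 4) {τ : V}
    (hτ : τ ∈ Val C (tt 0)) : ∀ {a : V}, a ∈ Val C (rho 0 s) →
    ∃ c ∈ C, c (rho 0 s) = a ∧ c (tt 0) = τ := by
  intro a ha
  obtain ⟨c0, hc0⟩ := hne
  obtain ⟨ca, hca, rfl⟩ := ha
  obtain ⟨cτ, hcτ, rfl⟩ := hτ
  obtain ⟨c1, hc1, h1s, h1o⟩ := move1 h1 s hc0 hca
  obtain ⟨j, hj⟩ : ∃ j : Fin 4, j ≠ s := by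
    refine ⟨if s = 0 then 1 else 0, ?_⟩
    split_ifs with h
    · subst h; decide
    · exact fun h' => h h'.symm
  obtain ⟨c2, hc2, h2t, h2o⟩ := move1t h1 j hc1 hcτ
  refine ⟨c2, hc2, ?_, h2t⟩
  rw [← h1s]
  exact h2o _ (by simp [hj.symm]) (by simp) (by simp)

lemma exists_other : ∀ s s' : Fin 4, ∃ j : Fin 4, j ≠ s ∧ j ≠ s' := by decide

lemma exists_double (h1 : P1 C) (hne : C.Nonempty) {s s' : Fin 4} (hss : s ≠ s') {τ a a' : V}
    (hτ : τ ∈ Val C (tt 0)) (ha : a ∈ Val C (rho 0 s)) (ha' : a' ∈ Val C (rho 0 s')) :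
    ∃ c ∈ C, c (rho 0 s) = a ∧ c (rho 0 s') = a' ∧ c (tt 0) = τ := by
  obtain ⟨c0, hc0⟩ := hne
  obtain ⟨ca, hca, rfl⟩ := ha
  obtain ⟨ca', hca', rfl⟩ := ha'
  obtain ⟨cτ, hcτ, rfl⟩ := hτ
  obtain ⟨c1, hc1, h1s, h1o⟩ := move1 h1 s hc0 hca
  obtain ⟨c2, hc2, h2s, h2o⟩ := move1 h1 s' hc1 hca'
  obtain ⟨j, hj, hj'⟩ : ∃ j : Fin 4, j ≠ s ∧ j ≠ s' := exists_other s s'
  obtain ⟨c3, hc3, h3t, h3o⟩ := move1t h1 j hc2 hcτ
  refine ⟨c3, hc3, ?_, ?_, h3t⟩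
  · rw [← h1s, h3o _ (by simp [hj.symm]) (by simp) (by simp)]
    exact h2o _ (by simp [hss]) (by simp) (by simp)
  · rw [← h2s]
    exact h3o _ (by simp [hj'.symm]) (by simp) (by simp)

lemma exists_change (h1 : P1 C) (s : Fin 4) {c : El → V} (hc : c ∈ C) {b : V}
    (hb : b ∈ Val C (rho 0 s)) :
    ∃ c' ∈ C, c' (rho 0 s) = b ∧ (∀ j, j ≠ s → c' (rho 0 j) = c (rho 0 j)) ∧
      c' (tt 1) = c (tt 1) := by
  obtain ⟨cb, hcb, rfl⟩ := hb
  obtain ⟨c', hc', hs, ho⟩ := move1 h1 s hc hcb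
  exact ⟨c', hc', hs, fun j hj => ho _ (by simp [hj]) (by simp) (by simp),
    ho _ (by simp) (by simp) (by simp)⟩

lemma R_unique (h1 : P1 C) (h2 : P2 C) {s : Fin 4} {a b τ τ' τ'' : V}
    (h : R C s a b τ τ') (h' : R C s a b τ τ'') : τ' = τ'' := by
  obtain ⟨c1, hc1, c1', hc1', ha1, hb1, hx1, hu1, ht1, ht1'⟩ := h
  obtain ⟨c2, hc2, c2', hc2', ha2, hb2, hx2, hu2, ht2, ht2'⟩ := h'
  rw [← ht1', ← ht2']
  exact star h1 h2 s hc1 hc2 hc1' hc2' (ha1.trans ha2.symm) (ht1.trans ht2.symm)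
    (hb1.trans hb2.symm) hx1 hu1 hx2 hu2

lemma R_symm {s : Fin 4} {a b τ τ' : V} (h : R C s a b τ τ') : R C s b a τ' τ := by
  obtain ⟨c1, hc1, c1', hc1', ha1, hb1, hx1, hu1, ht1, ht1'⟩ := h
  exact ⟨c1', hc1', c1, hc1, hb1, ha1, fun j hj => (hx1 j hj).symm, hu1.symm, ht1', ht1⟩

lemma R_total (h1 : P1 C) (hne : C.Nonempty) {s : Fin 4} {a b τ : V}
    (ha : a ∈ Val C (rho 0 s)) (hb : b ∈ Val C (rho 0 s)) (hτ : τ ∈ Val C (tt 0)) :
    ∃ τ' ∈ Val C (tt 0), R C s a b τ τ' := by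
  obtain ⟨c, hc, hca, hct⟩ := exists_single h1 hne s hτ ha
  obtain ⟨c', hc', hs, hx, hu⟩ := exists_change h1 s hc hb
  exact ⟨c' (tt 0), ⟨c', hc', rfl⟩, c, hc, c', hc', hca, hs, hx, hu, hct, rfl⟩

lemma R_trans (h1 : P1 C) (h2 : P2 C) {s : Fin 4} {a b d τ τ' τ'' : V}
    (h : R C s a b τ τ') (h' : R C s b d τ' τ'') : R C s a d τ τ'' := by
  obtain ⟨c1, hc1, c1', hc1', ha1, hb1, hx1, hu1, ht1, ht1'⟩ := h
  obtain ⟨c3, hc3, hs, hx, hu⟩ := exists_change h1 s hc1' (b := d) (by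
    obtain ⟨_, _, c2', hc2', _, hd, _⟩ := h'
    exact ⟨c2', hc2', hd⟩)
  have hR : R C s b d τ' (c3 (tt 0)) := ⟨c1', hc1', c3, hc3, hb1, hs, hx, hu, ht1', rfl⟩
  have : c3 (tt 0) = τ'' := R_unique h1 h2 hR h'
  exact ⟨c1, hc1, c3, hc3, ha1, hs, fun j hj => (hx j hj).trans (hx1 j hj), hu.trans hu1, ht1, this⟩

lemma R_refl (h1 : P1 C) (hne : C.Nonempty) {s : Fin 4} {a τ : V}
    (ha : a ∈ Val C (rho 0 s)) (hτ : τ ∈ Val C (tt 0)) : R C s a a τ τ := by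
  obtain ⟨c, hc, hca, hct⟩ := exists_single h1 hne s hτ ha
  exact ⟨c, hc, c, hc, hca, hca, fun _ _ => rfl, rfl, hct, hct⟩

lemma R_comm (h1 : P1 C) (h2 : P2 C) (hne : C.Nonempty) {s s' : Fin 4} (hss : s ≠ s')
    {a b a' b' τ τ1 τ2 τ3 τ4 : V}
    (hτ : τ ∈ Val C (tt 0)) (ha : a ∈ Val C (rho 0 s)) (hb : b ∈ Val C (rho 0 s))
    (ha' : a' ∈ Val C (rho 0 s')) (hb' : b' ∈ Val C (rho 0 s'))
    (r1 : R C s a b τ τ1) (r2 : R C s' a' b' τ1 τ2)
    (r3 : R C s' a' b' τ τ3) (r4 : R C s a b τ3 τ4) : τ2 = τ4 := by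
  obtain ⟨c, hc, hca, hca', hct⟩ := exists_double h1 hne hss hτ ha ha'
  obtain ⟨c1, hc1, h1s, h1x, h1u⟩ := exists_change h1 s hc hb
  obtain ⟨c12, hc12, h12s, h12x, h12u⟩ := exists_change h1 s' hc1 hb'
  obtain ⟨c2, hc2, h2s, h2x, h2u⟩ := exists_change h1 s' hc hb'
  obtain ⟨c21, hc21, h21s, h21x, h21u⟩ := exists_change h1 s hc2 hb
  have e1 : c1 (tt 0) = τ1 := R_unique h1 h2 ⟨c, hc, c1, hc1, hca, h1s, h1x, h1u, hct, rfl⟩ r1
  have e2 : c12 (tt 0) = τ2 :=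
    R_unique h1 h2 ⟨c1, hc1, c12, hc12, (h1x s' hss.symm).trans hca', h12s, h12x, h12u, e1, rfl⟩ r2
  have e3 : c2 (tt 0) = τ3 := R_unique h1 h2 ⟨c, hc, c2, hc2, hca', h2s, h2x, h2u, hct, rfl⟩ r3
  have e4 : c21 (tt 0) = τ4 :=
    R_unique h1 h2 ⟨c2, hc2, c21, hc21, (h2x s hss).trans hca, h21s, h21x, h21u, e3, rfl⟩ r4
  rw [← e2, ← e4]
  refine det_t h2 hc12 hc21 ?_ ?_
  · intro j
    by_cases hj : j = s
    · subst hj
      rw [h12x j hss, h1s, h21s]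
    · by_cases hj' : j = s'
      · subst hj'
        rw [h12s, h21x j hj, h2s]
      · rw [h12x j hj', h1x j hj, h21x j hj, h2x j hj']
  · rw [h12u, h1u, h21u, h2u]

lemma R_transitive (h1 : P1 C) (hne : C.Nonempty) {s : Fin 4} {a τ τ' : V}
    (ha : a ∈ Val C (rho 0 s)) (hτ : τ ∈ Val C (tt 0)) (hτ' : τ' ∈ Val C (tt 0)) :
    ∃ b ∈ Val C (rho 0 s), R C s a b τ τ' := by
  obtain ⟨c, hc, hca, hct⟩ := exists_single h1 hne s hτ ha
  obtain ⟨cτ, hcτ, rfl⟩ := hτ'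
  obtain ⟨c', hc', ht', ho⟩ := move1t h1 s hc hcτ
  exact ⟨c' (rho 0 s), ⟨c', hc', rfl⟩, c, hc, c', hc', hca, rfl,
    fun j hj => ho _ (by simp [hj]) (by simp) (by simp), ho _ (by simp) (by simp) (by simp),
    hct, ht'⟩

lemma R_inj (h1 : P1 C) (h2 : P2 C) {s : Fin 4} {a b b' τ τ' : V}
    (h : R C s a b τ τ') (h' : R C s a b' τ τ') : b = b' := by
  obtain ⟨c1, hc1, c1', hc1', ha1, hb1, hx1, hu1, ht1, ht1'⟩ := h
  obtain ⟨c3, hc3, hs, hx, hu⟩ := exists_change h1 s hc1 (b := b') (by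
    obtain ⟨_, _, c2', hc2', _, hd, _⟩ := h'
    exact ⟨c2', hc2', hd⟩)
  have e : c3 (tt 0) = τ' :=
    R_unique h1 h2 ⟨c1, hc1, c3, hc3, ha1, hs, hx, hu, ht1, rfl⟩ h'
  have := det_x h2 s hc1' hc3 (fun j hj => (hx1 j hj).trans (hx j hj).symm) (ht1'.trans e.symm)
    (hu1.trans hu.symm)
  rw [← hb1, ← hs, this]

end Pool.Agent.H.MP_827d9d_co
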