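import Mathlib

/-!
Abstract group theoretic and counting lemmas.
-/

namespace Pool.Agent.H.MP_827d9d_co

open Finset

/-- A finite commutative group of order divisible by 3 maps onto a group of order 3. -/
lemma exists_onto_zmod3 (A : Type) [CommGroup A] [Finite A] (h : 3 ∣ Nat.card A) :
    ∃ π : A →* Multiplicative (ZMod 3), Function.Surjective π := by
  obtain ⟨ι, _, n, hn, ⟨e⟩⟩ := CommGroup.equiv_prod_multiplicative_zmod_of_finite A
  have hcard : Nat.card A = ∏ i, n i := by
    rw [Nat.card_congr e.toEquiv, Nat.card_pi]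
    refine Finset.prod_congr rfl fun i _ => ?_
    rw [Nat.card_congr (Multiplicative.toAdd : Multiplicative (ZMod (n i)) ≃ ZMod (n i)),
      Nat.card_zmod]
  rw [hcard] at h
  obtain ⟨i, _, hi⟩ := (Nat.prime_three.prime.dvd_finsetProd_iff _).1 h
  let g : Multiplicative (ZMod (n i)) →* Multiplicative (ZMod 3) :=
    AddMonoidHom.toMultiplicative (ZMod.castHom hi (ZMod 3)).toAddMonoidHom
  have hg : Function.Surjective g := by
    intro x
    obtain ⟨y, hy⟩ := ZMod.castHom_surjective hi (Multiplicative.toAdd x)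
    refine ⟨Multiplicative.ofAdd y, ?_⟩
    show Multiplicative.ofAdd ((ZMod.castHom hi (ZMod 3)) y) = x
    rw [hy]; rfl
  refine ⟨(g.comp (Pi.evalMonoidHom _ i)).comp e.toMonoidHom, ?_⟩
  intro x
  obtain ⟨y, hy⟩ := hg x
  classical
  obtain ⟨w, hw⟩ := e.surjective (Pi.mulSingle i y)
  refine ⟨w, ?_⟩
  show g ((e w) i) = x
  rw [hw, Pi.mulSingle_eq_same, hy]

lemma sum_fiber (A : Type) [CommGroup A] [Fintype A] {m : ℕ} (hm : Fintype.card A = 3 * m)
    (π : A →* Multiplicative (ZMod 3)) (hπ : Function.Surjective π) (F : ZMod 3 → ℤ) :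
    ∑ a : A, F (Multiplicative.toAdd (π a)) = m * (F 0 + F 1 + F 2) := by
  classical
  have hfib : ∀ z : Multiplicative (ZMod 3), (univ.filter fun a => π a = z).card = m := by
    have hall : ∀ z z' : Multiplicative (ZMod 3),
        (univ.filter fun a => π a = z).card = (univ.filter fun a => π a = z').card := by
      intro z z'
      exact MonoidHom.card_fiber_eq_of_mem_range π (hπ z) (hπ z')
    intro z
    have hsum := Finset.card_eq_sum_card_fiberwise (f := π) (s := (univ : Finset A))
      (t := (univ : Finset (Multiplicative (ZMod 3)))) (by intro x _; simp)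
    rw [Finset.card_univ, hm, Finset.sum_congr rfl (fun z' _ => hall z' z)] at hsum
    rw [Finset.sum_const, Finset.card_univ] at hsum
    have h3 : Fintype.card (Multiplicative (ZMod 3)) = 3 := by
      rw [Fintype.card_multiplicative]; exact ZMod.card 3
    rw [h3, smul_eq_mul] at hsum
    omega
  have h1 : ∑ a : A, F (Multiplicative.toAdd (π a)) =
      ∑ z : Multiplicative (ZMod 3), ∑ a ∈ univ.filter (fun a => π a = z),
        F (Multiplicative.toAdd (π a)) := by
    rw [Finset.sum_fiberwise]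
  rw [h1]
  have h2 : ∀ z : Multiplicative (ZMod 3), ∑ a ∈ univ.filter (fun a => π a = z),
        F (Multiplicative.toAdd (π a)) = m * F (Multiplicative.toAdd z) := by
    intro z
    rw [Finset.sum_congr rfl (g := fun _ => F (Multiplicative.toAdd z)), Finset.sum_const, hfib z,
      nsmul_eq_mul]
    intro a ha
    rw [(Finset.mem_filter.1 ha).2]
  rw [Finset.sum_congr rfl (fun z _ => h2 z), ← Finset.mul_sum]
  congr 1
  rw [← (Multiplicative.ofAdd : ZMod 3 ≃ Multiplicative (ZMod 3)).sum_comp]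
  show ∑ i : ZMod 3, F i = F 0 + F 1 + F 2
  exact Fin.sum_univ_three F

/-- The counting contradiction. -/
lemma count_contra {D : Type} [Finite D] {X : Fin 4 → Type} [∀ s, Fintype (X s)]
    (p : ∀ s, D → X s)
    (hp : ∀ s s', s ≠ s' → Function.Bijective (fun d => (p s d, p s' d)))
    (f : ∀ s, X s → ZMod 3) (m : ℕ)
    (hbal : ∀ s, ∀ F : ZMod 3 → ℤ, ∑ b, F (f s b) = m * (F 0 + F 1 + F 2))
    (hzero : ∀ d, ∑ s, f s (p s d) = 0) (h3 : ¬ 3 ∣ m) : False := by
  classical
  have := Fintype.ofFinite D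
  let F : ZMod 3 → ℤ := ![0, 1, -1]
  have hF : ∀ z : ZMod 3, ((F z : ℤ) : ZMod 3) = z := by decide
  have hF1 : F 0 + F 1 + F 2 = 0 := by decide
  have hF2 : F 0 ^ 2 + F 1 ^ 2 + F 2 ^ 2 = 2 := by decide
  -- each term is divisible by 9
  have hdiv : (9 : ℤ) ∣ ∑ d : D, (∑ s, F (f s (p s d))) ^ 2 := by
    refine Finset.dvd_sum fun d _ => ?_
    have h : (3 : ℤ) ∣ ∑ s, F (f s (p s d)) := by
      have : ((∑ s, F (f s (p s d)) : ℤ) : ZMod 3) = 0 := by
        push_cast
        rw [← hzero d]
        exact Finset.sum_congr rfl fun s _ => hF _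
      exact (ZMod.intCast_zmod_eq_zero_iff_dvd _ 3).1 this
    obtain ⟨k, hk⟩ := h
    rw [hk]
    exact ⟨k ^ 2, by ring⟩
  -- the sum
  have hcross : ∀ s s', s ≠ s' → ∑ d : D, F (f s (p s d)) * F (f s' (p s' d)) = 0 := by
    intro s s' hss
    have h1 := (hp s s' hss).sum_comp (fun q : X s × X s' => F (f s q.1) * F (f s' q.2))
    rw [h1, Fintype.sum_prod_type]
    have : ∀ x : X s, ∑ y : X s', F (f s x) * F (f s' y) = 0 := by
      intro x
      rw [← Finset.mul_sum, hbal s' F, hF1]
      simp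
    exact Finset.sum_eq_zero fun x _ => this x
  have hdiag : ∀ s, ∑ d : D, F (f s (p s d)) * F (f s (p s d)) = 6 * m ^ 2 := by
    intro s
    obtain ⟨s', hss⟩ : ∃ s' : Fin 4, s ≠ s' := by
      revert s; decide
    have h1 := (hp s s' hss).sum_comp (fun q : X s × X s' => F (f s q.1) * F (f s q.1))
    have hcard : (Fintype.card (X s') : ℤ) = 3 * m := by
      have := hbal s' (fun _ => 1)
      simp at this
      linarith
    have hsq : ∑ x : X s, F (f s x) * F (f s x) = m * 2 := by
      have := hbal s (fun z => F z ^ 2)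
      rw [hF2] at this
      rw [← this]
      exact Finset.sum_congr rfl fun x _ => by ring
    rw [h1, Fintype.sum_prod_type]
    have : ∀ x : X s, ∑ _y : X s', F (f s x) * F (f s x) = (3 * m) * (F (f s x) * F (f s x)) := by
      intro x
      rw [Finset.sum_const, Finset.card_univ, nsmul_eq_mul, hcard]
    rw [Finset.sum_congr rfl (fun x _ => this x), ← Finset.mul_sum, hsq]
    ring
  have htot : ∑ d : D, (∑ s, F (f s (p s d))) ^ 2 = 24 * m ^ 2 := by
    have h1 : ∀ d : D, (∑ s, F (f s (p s d))) ^ 2 =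
        ∑ s, ∑ s', F (f s (p s d)) * F (f s' (p s' d)) := by
      intro d
      rw [sq, Finset.sum_mul_sum]
    rw [Finset.sum_congr rfl (fun d _ => h1 d), Finset.sum_comm]
    have h2 : ∀ s : Fin 4, ∑ d : D, ∑ s', F (f s (p s d)) * F (f s' (p s' d)) = 6 * m ^ 2 := by
      intro s
      rw [Finset.sum_comm, Finset.sum_eq_single s]
      · exact hdiag s
      · intro s' _ hs'
        exact hcross s s' hs'.symm
      · simp
    rw [Finset.sum_congr rfl (fun s _ => h2 s)]
    simp
    ring
  rw [htot] at hdiv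
  apply h3
  have h5 : (3 : ℤ) ∣ 8 * (m : ℤ) ^ 2 := by
    obtain ⟨k, hk⟩ := hdiv
    exact ⟨k, by linarith⟩
  have h6 : 3 ∣ 8 * m ^ 2 := by exact_mod_cast h5
  rcases (Nat.Prime.dvd_mul Nat.prime_three).1 h6 with h | h
  · omega
  · exact Nat.prime_three.dvd_of_dvd_pow h

end Pool.Agent.H.MP_827d9d_co
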