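import Pool.Agent.H.MP_827d9d_co.Core2
import Pool.Agent.H.MP_827d9d_co.Core3

/-!
The core theorem: no code with `3 m` symbols on the special coordinate, `3 ∤ m`.
-/

namespace Pool.Agent.H.MP_827d9d_co

open El

section abstractGroup

variable {T : Type} {X : Fin 4 → Type}

lemma semireg [∀ s, Nonempty (X s)] (L : ∀ s, X s → X s → Equiv.Perm T)
    (htrans : ∀ s a τ τ', ∃ b, L s a b τ = τ') (s : Fin 4) {σ σ' : Equiv.Perm T}
    (h : ∀ a b, σ * L s a b = L s a b * σ) (h' : ∀ a b, σ' * L s a b = L s a b * σ') {τ0 : T}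
    (h0 : σ τ0 = σ' τ0) : σ = σ' := by
  ext τ
  obtain ⟨a⟩ := (inferInstance : Nonempty (X s))
  obtain ⟨b, hb⟩ := htrans s a τ0 τ
  have e1 : σ (L s a b τ0) = L s a b (σ τ0) := by
    have := congrArg (fun g : Equiv.Perm T => g τ0) (h a b)
    simpa using this
  have e2 : σ' (L s a b τ0) = L s a b (σ' τ0) := by
    have := congrArg (fun g : Equiv.Perm T => g τ0) (h' a b)
    simpa using this
  rw [← hb, e1, e2, h0]

lemma exists_regular [Nonempty T] [∀ s, Nonempty (X s)] (L : ∀ s, X s → X s → Equiv.Perm T)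
    (hcomm : ∀ s s', s ≠ s' → ∀ a b a' b', L s a b * L s' a' b' = L s' a' b' * L s a b)
    (htrans : ∀ s a τ τ', ∃ b, L s a b τ = τ') :
    ∃ A : Subgroup (Equiv.Perm T), (∀ s a b, L s a b ∈ A) ∧
      (∀ σ ∈ A, ∀ σ' ∈ A, σ * σ' = σ' * σ) ∧ (∀ σ ∈ A, ∀ τ, σ τ = τ → σ = 1) := by
  let A : Subgroup (Equiv.Perm T) :=
    Subgroup.centralizer (Set.range fun q : X 0 × X 0 => L 0 q.1 q.2)
  have hA : ∀ σ, σ ∈ A ↔ ∀ a b, σ * L 0 a b = L 0 a b * σ := by
    intro σ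
    rw [Subgroup.mem_centralizer_iff]
    constructor
    · intro h a b
      exact (h _ ⟨(a, b), rfl⟩).symm
    · rintro h _ ⟨⟨a, b⟩, rfl⟩
      exact (h a b).symm
  have h1 : ∀ s, s ≠ 0 → ∀ a b, L s a b ∈ A := by
    intro s hs a b
    rw [hA]
    intro a' b'
    exact hcomm s 0 hs a b a' b'
  obtain ⟨τ0⟩ := (inferInstance : Nonempty T)
  -- every element of A is some `L s a b`, for each nonzero s
  have h2 : ∀ σ ∈ A, ∀ s, s ≠ 0 → ∀ a, ∃ b, σ = L s a b := by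
    intro σ hσ s hs a
    obtain ⟨b, hb⟩ := htrans s a τ0 (σ τ0)
    refine ⟨b, ?_⟩
    exact semireg L htrans 0 ((hA σ).1 hσ) ((hA _).1 (h1 s hs a b)) hb.symm
  have hAcomm : ∀ σ ∈ A, ∀ σ' ∈ A, σ * σ' = σ' * σ := by
    intro σ hσ σ' hσ'
    obtain ⟨a⟩ := (inferInstance : Nonempty (X 1))
    obtain ⟨a'⟩ := (inferInstance : Nonempty (X 2))
    obtain ⟨b, rfl⟩ := h2 σ hσ 1 (by decide) a
    obtain ⟨b', rfl⟩ := h2 σ' hσ' 2 (by decide) a'
    exact hcomm 1 2 (by decide) a b a' b'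
  have h0 : ∀ a b, L 0 a b ∈ A := by
    intro a b
    obtain ⟨a'⟩ := (inferInstance : Nonempty (X 2))
    obtain ⟨b', hb'⟩ := htrans 2 a' τ0 (L 0 a b τ0)
    have : L 0 a b = L 2 a' b' := by
      refine semireg L htrans 1 ?_ ?_ hb'.symm
      · intro a1 b1; exact hcomm 0 1 (by decide) a b a1 b1
      · intro a1 b1; exact hcomm 2 1 (by decide) a' b' a1 b1
    rw [this]
    exact h1 2 (by decide) a' b'
  refine ⟨A, ?_, hAcomm, ?_⟩
  · intro s a b
    by_cases hs : s = 0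
    · subst hs; exact h0 a b
    · exact h1 s hs a b
  · intro σ hσ τ hτ
    refine semireg L htrans 0 ((hA σ).1 hσ) (σ' := 1) (by simp) (τ0 := τ) (by simpa using hτ)

end abstractGroup

variable {V : Type} {C : Set (El → V)}

/-- The translation permutations. -/
noncomputable def Lfun (h1 : P1 C) (hne : C.Nonempty) (s : Fin 4) (a b : Val C (rho 0 s))
    (τ : Val C (tt 0)) : Val C (tt 0) :=
  ⟨(R_total h1 hne a.2 b.2 τ.2).choose, (R_total h1 hne a.2 b.2 τ.2).choose_spec.1⟩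

lemma Lfun_spec (h1 : P1 C) (hne : C.Nonempty) (s : Fin 4) (a b : Val C (rho 0 s))
    (τ : Val C (tt 0)) : R C s a b τ (Lfun h1 hne s a b τ) :=
  (R_total h1 hne a.2 b.2 τ.2).choose_spec.2

/-- The translation permutations, bundled. -/
noncomputable def Lperm (h1 : P1 C) (h2 : P2 C) (hne : C.Nonempty) (s : Fin 4)
    (a b : Val C (rho 0 s)) : Equiv.Perm (Val C (tt 0)) where
  toFun := Lfun h1 hne s a b
  invFun := Lfun h1 hne s b a
  left_inv τ := by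
    apply Subtype.ext
    exact R_unique h1 h2 (Lfun_spec h1 hne s b a (Lfun h1 hne s a b τ))
      (R_symm (Lfun_spec h1 hne s a b τ))
  right_inv τ := by
    apply Subtype.ext
    exact R_unique h1 h2 (Lfun_spec h1 hne s a b (Lfun h1 hne s b a τ))
      (R_symm (Lfun_spec h1 hne s b a τ))

lemma Lperm_eq (h1 : P1 C) (h2 : P2 C) (hne : C.Nonempty) (s : Fin 4)
    (a b : Val C (rho 0 s)) (τ τ' : Val C (tt 0)) (h : R C s a b τ τ') :
    Lperm h1 h2 hne s a b τ = τ' := by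
  apply Subtype.ext
  exact R_unique h1 h2 (Lfun_spec h1 hne s a b τ) h

theorem core (h1 : P1 C) (h2 : P2 C) (hne : C.Nonempty) (m : ℕ)
    (hcard : Nat.card (Val C (tt 0)) = 3 * m) (h3 : ¬ 3 ∣ m) : False := by
  classical
  have hm0 : m ≠ 0 := by rintro rfl; exact h3 (dvd_zero 3)
  obtain ⟨c0, hc0⟩ := id hne
  have hTne : Nonempty (Val C (tt 0)) := ⟨⟨c0 (tt 0), c0, hc0, rfl⟩⟩
  have hXne : ∀ s, Nonempty (Val C (rho 0 s)) := fun s => ⟨⟨c0 (rho 0 s), c0, hc0, rfl⟩⟩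
  have hTfin : Finite (Val C (tt 0)) := by
    apply Nat.finite_of_card_ne_zero
    rw [hcard]; omega
  obtain ⟨A, hLA, hAcomm, hAreg⟩ :=
    exists_regular (X := fun s => Val C (rho 0 s)) (Lperm h1 h2 hne)
    (by
      intro s s' hss a b a' b'
      ext τ
      have r1 := Lfun_spec h1 hne s' a' b' τ
      have r2 := Lfun_spec h1 hne s a b (Lfun h1 hne s' a' b' τ)
      have r3 := Lfun_spec h1 hne s a b τ
      have r4 := Lfun_spec h1 hne s' a' b' (Lfun h1 hne s a b τ)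
      exact R_comm h1 h2 hne hss.symm τ.2 a'.2 b'.2 a.2 b.2 r1 r2 r3 r4)
    (by
      intro s a τ τ'
      obtain ⟨b, hb, hR⟩ := R_transitive h1 hne a.2 τ.2 τ'.2
      exact ⟨⟨b, hb⟩, Lperm_eq h1 h2 hne s a ⟨b, hb⟩ τ τ' hR⟩)
  let τ0 : Val C (tt 0) := ⟨c0 (tt 0), c0, hc0, rfl⟩
  let x0 : ∀ s, Val C (rho 0 s) := fun s => ⟨c0 (rho 0 s), c0, hc0, rfl⟩
  have hAfin : Finite A := inferInstance
  -- equality criterion in A
  have hAext : ∀ σ σ' : A, ∀ τ, (σ : Equiv.Perm (Val C (tt 0))) τ = (σ' : Equiv.Perm (Val C (tt 0))) τ → σ = σ' := by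
    intro σ σ' τ h
    have : σ'⁻¹ * σ = 1 := by
      apply Subtype.ext
      refine hAreg _ (σ'⁻¹ * σ).2 τ ?_
      show ((σ' : Equiv.Perm (Val C (tt 0)))⁻¹ * (σ : Equiv.Perm (Val C (tt 0)))) τ = τ
      rw [Equiv.Perm.mul_apply, h]
      simp
    have h' := congrArg (fun z => σ' * z) this
    simpa using h'
  -- cardinality of A
  have hcardA : Nat.card A = 3 * m := by
    rw [← hcard]
    refine Nat.card_congr (Equiv.ofBijective (fun σ : A => (σ : Equiv.Perm (Val C (tt 0))) τ0) ⟨?_, ?_⟩)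
    · intro σ σ' h
      exact hAext σ σ' τ0 h
    · intro τ
      obtain ⟨b, hb, hR⟩ := R_transitive h1 hne (x0 0).2 τ0.2 τ.2
      exact ⟨⟨Lperm h1 h2 hne 0 (x0 0) ⟨b, hb⟩, hLA _ _ _⟩,
        Lperm_eq h1 h2 hne 0 (x0 0) ⟨b, hb⟩ τ0 τ hR⟩
  let _ : CommGroup A :=
    { (inferInstance : Group A) with
      mul_comm := fun σ σ' => Subtype.ext (hAcomm σ σ.2 σ' σ'.2) }
  let _ : Fintype A := Fintype.ofFinite A
  obtain ⟨π, hπ⟩ := exists_onto_zmod3 A (by rw [hcardA]; exact dvd_mul_right 3 m)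
  -- the bijections
  have hbij : ∀ s, Function.Bijective
      (fun b : Val C (rho 0 s) => (⟨Lperm h1 h2 hne s (x0 s) b, hLA _ _ _⟩ : A)) := by
    intro s
    constructor
    · intro b b' h
      have h' : Lperm h1 h2 hne s (x0 s) b τ0 = Lperm h1 h2 hne s (x0 s) b' τ0 := by
        have := congrArg (fun z : A => (z : Equiv.Perm (Val C (tt 0))) τ0) h
        exact this
      have r1 := Lfun_spec h1 hne s (x0 s) b τ0
      have r2 := Lfun_spec h1 hne s (x0 s) b' τ0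
      have e : Lfun h1 hne s (x0 s) b τ0 = Lfun h1 hne s (x0 s) b' τ0 := h'
      rw [← e] at r2
      exact Subtype.ext (R_inj h1 h2 r1 r2)
    · intro σ
      obtain ⟨b, hb, hR⟩ := R_transitive h1 hne (x0 s).2 τ0.2 ((σ : Equiv.Perm (Val C (tt 0))) τ0).2
      refine ⟨⟨b, hb⟩, hAext _ _ τ0 ?_⟩
      exact Lperm_eq h1 h2 hne s (x0 s) ⟨b, hb⟩ τ0 _ hR
  have hXfin : ∀ s, Finite (Val C (rho 0 s)) := fun s =>
    Finite.of_injective _ (hbij s).1
  let _ : ∀ s, Fintype (Val C (rho 0 s)) := fun s => Fintype.ofFinite _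
  let f : ∀ s, Val C (rho 0 s) → ZMod 3 := fun s b =>
    Multiplicative.toAdd (π ⟨Lperm h1 h2 hne s (x0 s) b, hLA _ _ _⟩)
  have hbal : ∀ s, ∀ F : ZMod 3 → ℤ, ∑ b, F (f s b) = m * (F 0 + F 1 + F 2) := by
    intro s F
    rw [← sum_fiber A (by rw [← Nat.card_eq_fintype_card, hcardA]) π hπ F]
    exact (hbij s).sum_comp (fun σ : A => F (Multiplicative.toAdd (π σ)))
  -- the set D
  let D : Set (El → V) := {c | c ∈ C ∧ ∀ e, (∀ s, e ≠ rho 0 s) → c e = c0 e}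
  let p : ∀ s, D → Val C (rho 0 s) := fun s d => ⟨d.1 (rho 0 s), d.1, d.2.1, rfl⟩
  have hp : ∀ s s', s ≠ s' → Function.Bijective (fun d => (p s d, p s' d)) := by
    intro s s' hss
    obtain ⟨j, k, hjk, hjs, hjs', hks, hks', hall⟩ : ∃ j k : Fin 4, j ≠ k ∧ j ≠ s ∧ j ≠ s' ∧
        k ≠ s ∧ k ≠ s' ∧ ∀ l, l = s ∨ l = s' ∨ l = j ∨ l = k := by
      have : ∀ s s' : Fin 4, s ≠ s' → ∃ j k : Fin 4, j ≠ k ∧ j ≠ s ∧ j ≠ s' ∧
        k ≠ s ∧ k ≠ s' ∧ ∀ l, l = s ∨ l = s' ∨ l = j ∨ l = k := by decide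
      exact this s s' hss
    constructor
    · rintro ⟨d, hd, hdo⟩ ⟨d', hd', hdo'⟩ h
      have hs : d (rho 0 s) = d' (rho 0 s) := by
        have := congrArg (fun q => (q.1 : V)) h
        exact this
      have hs' : d (rho 0 s') = d' (rho 0 s') := by
        have := congrArg (fun q => (q.2 : V)) h
        exact this
      have hoff : ∀ e, e ≠ rho 0 j → e ≠ rho 0 k → d e = d' e := by
        intro e hej hek
        by_cases he : ∀ l, e ≠ rho 0 l
        · rw [hdo e he, hdo' e he]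
        · push Not at he
          obtain ⟨l, rfl⟩ := he
          rcases hall l with rfl | rfl | rfl | rfl
          · exact hs
          · exact hs'
          · exact absurd rfl hej
          · exact absurd rfl hek
      have hj : d (rho 0 j) = d' (rho 0 j) := det_line h2 hjk hd hd' hoff
      have hk : d (rho 0 k) = d' (rho 0 k) :=
        det_line h2 hjk.symm hd hd' (fun e h1 h2 => hoff e h2 h1)
      apply Subtype.ext
      funext e
      by_cases hej : e = rho 0 j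
      · rw [hej]; exact hj
      · by_cases hek : e = rho 0 k
        · rw [hek]; exact hk
        · exact hoff e hej hek
    · rintro ⟨⟨a, ca, hca, rfl⟩, ⟨b, cb, hcb, rfl⟩⟩
      obtain ⟨c1, hc1, h1s, h1o⟩ := move3 h1 s j k hjs.symm hks.symm hjk hc0 hca
      obtain ⟨c2, hc2, h2s, h2o⟩ := move3 h1 s' j k hjs'.symm hks'.symm hjk hc1 hcb
      refine ⟨⟨c2, hc2, ?_⟩, ?_⟩
      · intro e he
        rw [h2o e (he _) (he _) (he _), h1o e (he _) (he _) (he _)]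
      · refine Prod.ext (Subtype.ext ?_) (Subtype.ext ?_)
        · show c2 (rho 0 s) = ca (rho 0 s)
          rw [h2o _ (by simp [hss]) (by simp [hjs.symm]) (by simp [hks.symm]), h1s]
        · exact h2s
  have hDfin : Finite D := Finite.of_injective _ (hp 0 1 (by decide)).1
  have hzero : ∀ d : D, ∑ s, f s (p s d) = 0 := by
    rintro ⟨d, hd, hdo⟩
    obtain ⟨g1, hg1, g1s, g1x, g1u⟩ := exists_change h1 0 hc0 (b := d (rho 0 0)) ⟨d, hd, rfl⟩
    obtain ⟨g2, hg2, g2s, g2x, g2u⟩ := exists_change h1 1 hg1 (b := d (rho 0 1)) ⟨d, hd, rfl⟩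
    obtain ⟨g3, hg3, g3s, g3x, g3u⟩ := exists_change h1 2 hg2 (b := d (rho 0 2)) ⟨d, hd, rfl⟩
    obtain ⟨g4, hg4, g4s, g4x, g4u⟩ := exists_change h1 3 hg3 (b := d (rho 0 3)) ⟨d, hd, rfl⟩
    have hx4 : ∀ s, g4 (rho 0 s) = d (rho 0 s) := by
      intro s
      fin_cases s
      · show g4 (rho 0 0) = d (rho 0 0)
        rw [g4x 0 (by decide), g3x 0 (by decide), g2x 0 (by decide), g1s]
      · show g4 (rho 0 1) = d (rho 0 1)
        rw [g4x 1 (by decide), g3x 1 (by decide), g2s]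
      · show g4 (rho 0 2) = d (rho 0 2)
        rw [g4x 2 (by decide), g3s]
      · exact g4s
    have hu4 : g4 (tt 1) = d (tt 1) := by
      rw [g4u, g3u, g2u, g1u, hdo (tt 1) (by simp)]
    have ht4 : g4 (tt 0) = d (tt 0) := det_t h2 hg4 hd hx4 hu4
    have htd : d (tt 0) = c0 (tt 0) := hdo (tt 0) (by simp)
    let T' := Val C (tt 0)
    let y1 : T' := ⟨g1 (tt 0), g1, hg1, rfl⟩
    let y2 : T' := ⟨g2 (tt 0), g2, hg2, rfl⟩
    let y3 : T' := ⟨g3 (tt 0), g3, hg3, rfl⟩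
    let y4 : T' := ⟨g4 (tt 0), g4, hg4, rfl⟩
    let dd : D := ⟨d, hd, hdo⟩
    have e1 : Lperm h1 h2 hne 0 (x0 0) (p 0 dd) τ0 = y1 :=
      Lperm_eq h1 h2 hne 0 (x0 0) (p 0 dd) τ0 y1 ⟨c0, hc0, g1, hg1, rfl, g1s, g1x, g1u, rfl, rfl⟩
    have e2 : Lperm h1 h2 hne 1 (x0 1) (p 1 dd) y1 = y2 :=
      Lperm_eq h1 h2 hne 1 (x0 1) (p 1 dd) y1 y2 ⟨g1, hg1, g2, hg2, g1x 1 (by decide), g2s, g2x,
        g2u, rfl, rfl⟩
    have e3 : Lperm h1 h2 hne 2 (x0 2) (p 2 dd) y2 = y3 :=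
      Lperm_eq h1 h2 hne 2 (x0 2) (p 2 dd) y2 y3 ⟨g2, hg2, g3, hg3,
        (g2x 2 (by decide)).trans (g1x 2 (by decide)), g3s, g3x, g3u, rfl, rfl⟩
    have e4 : Lperm h1 h2 hne 3 (x0 3) (p 3 dd) y3 = y4 :=
      Lperm_eq h1 h2 hne 3 (x0 3) (p 3 dd) y3 y4 ⟨g3, hg3, g4, hg4,
        ((g3x 3 (by decide)).trans (g2x 3 (by decide))).trans (g1x 3 (by decide)), g4s, g4x, g4u,
        rfl, rfl⟩
    have e5 : y4 = τ0 := Subtype.ext (ht4.trans htd)
    let a0 : A := ⟨Lperm h1 h2 hne 0 (x0 0) (p 0 dd), hLA _ _ _⟩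
    let a1 : A := ⟨Lperm h1 h2 hne 1 (x0 1) (p 1 dd), hLA _ _ _⟩
    let a2 : A := ⟨Lperm h1 h2 hne 2 (x0 2) (p 2 dd), hLA _ _ _⟩
    let a3 : A := ⟨Lperm h1 h2 hne 3 (x0 3) (p 3 dd), hLA _ _ _⟩
    have hprod : a3 * a2 * a1 * a0 = 1 := by
      refine hAext _ _ τ0 ?_
      show (Lperm h1 h2 hne 3 (x0 3) (p 3 dd)) ((Lperm h1 h2 hne 2 (x0 2) (p 2 dd))
        ((Lperm h1 h2 hne 1 (x0 1) (p 1 dd)) ((Lperm h1 h2 hne 0 (x0 0) (p 0 dd)) τ0))) = τ0
      rw [e1, e2, e3, e4, e5]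
    have hπ1 : π a3 * π a2 * π a1 * π a0 = 1 := by
      rw [← map_mul, ← map_mul, ← map_mul, hprod, map_one]
    have hadd : Multiplicative.toAdd (π a3) + Multiplicative.toAdd (π a2) +
        Multiplicative.toAdd (π a1) + Multiplicative.toAdd (π a0) = 0 := by
      have := congrArg Multiplicative.toAdd hπ1
      simpa using this
    have hsum : ∑ s, f s (p s dd) = Multiplicative.toAdd (π a0) + Multiplicative.toAdd (π a1) +
        Multiplicative.toAdd (π a2) + Multiplicative.toAdd (π a3) := Fin.sum_univ_four _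
    show ∑ s, f s (p s dd) = 0
    rw [hsum, ← hadd]
    abel
  exact count_contra p hp f m hbal hzero h3

end Pool.Agent.H.MP_827d9d_co
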