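import Mathlib

/-!
# Entropy functions and p-characteristic sets
-/

namespace Pool.Agent.H.MP_827d9d_co

/-- Shannon entropy (natural logarithm) of a discrete probability distribution. -/
noncomputable def shannon {α : Type} (p : PMF α) : ℝ :=
  ∑' a, Real.negMulLog (p a).toReal

/-- `h` is the entropy function of a discrete random vector `(X_i)_{i ∈ N}` with finite joint
entropy. The vector is given by its joint law `p` on `N → ℕ` (each `X_i` takes countably many
values, which are coded by natural numbers), and `X_A` has law
`p.map (fun x (i : A) => x i)`. -/
def IsEntropyFunction {N : Type} (h : Set N → ℝ) : Prop :=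
  ∃ p : PMF (N → ℕ), (Summable fun x => Real.negMulLog (p x).toReal) ∧
    ∀ A : Set N, h A = shannon (p.map fun x (i : A) => x i)

/-- The p-characteristic set of a matroid: the integers `v ≥ 2` such that `log v` times the rank
function is an entropy function. -/
def pCharSet {N : Type} (M : Matroid N) : Set ℕ :=
  {v | 2 ≤ v ∧ IsEntropyFunction fun A => Real.log v * ((M.eRk A).toNat : ℝ)}

end Pool.Agent.H.MP_827d9d_co
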