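import Pool.Agent.H.MP_827d9d_co.Defs

/-!
# Basic facts on entropy of discrete distributions
-/

namespace Pool.Agent.H.MP_827d9d_co

open scoped ENNReal
open Real (negMulLog)

/-- Extended-valued entropy. -/
noncomputable def He {α : Type} (p : PMF α) : ℝ≥0∞ :=
  ∑' a, ENNReal.ofReal (negMulLog (p a).toReal)

lemma toReal_le_one {α : Type} (p : PMF α) (a : α) : (p a).toReal ≤ 1 := by
  have := p.coe_le_one a
  exact ENNReal.toReal_mono ENNReal.one_ne_top this

lemma negMulLog_pmf_nonneg {α : Type} (p : PMF α) (a : α) : 0 ≤ negMulLog (p a).toReal :=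
  Real.negMulLog_nonneg ENNReal.toReal_nonneg (toReal_le_one p a)

lemma shannon_eq {α : Type} (p : PMF α) : shannon p = (He p).toReal := by
  unfold shannon He
  rw [ENNReal.tsum_toReal_eq (fun _ => ENNReal.ofReal_ne_top)]
  exact tsum_congr fun a => (ENNReal.toReal_ofReal (negMulLog_pmf_nonneg p a)).symm

lemma He_ne_top {α : Type} {p : PMF α} (h : Summable fun x => negMulLog (p x).toReal) :
    He p ≠ ⊤ := h.tsum_ofReal_ne_top

lemma ofReal_negMulLog {α : Type} (p : PMF α) (a : α) :
    ENNReal.ofReal (negMulLog (p a).toReal) = p a * ENNReal.ofReal (-Real.log (p a).toReal) := by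
  have h1 : negMulLog (p a).toReal = (p a).toReal * (-Real.log (p a).toReal) := by
    rw [Real.negMulLog]; ring
  rw [h1, ENNReal.ofReal_mul ENNReal.toReal_nonneg, ENNReal.ofReal_toReal (p.apply_ne_top a)]

/-- Entropy as an expectation. -/
lemma He_map {γ α : Type} (p : PMF γ) (g : γ → α) :
    He (p.map g) = ∑' x, p x * ENNReal.ofReal (-Real.log ((p.map g) (g x)).toReal) := by
  classical
  unfold He
  have h1 : ∀ a, ENNReal.ofReal (negMulLog ((p.map g) a).toReal) =
      ∑' x, (if a = g x then p x * ENNReal.ofReal (-Real.log ((p.map g) (g x)).toReal) else 0) := by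
    intro a
    rw [ofReal_negMulLog]
    conv_lhs => rw [PMF.map_apply]
    rw [← ENNReal.tsum_mul_right]
    refine tsum_congr fun x => ?_
    split_ifs with h
    · subst h
      rw [PMF.map_apply]
    · simp
  rw [tsum_congr h1, ENNReal.tsum_comm]
  refine tsum_congr fun x => ?_
  rw [tsum_eq_single (g x)]
  · simp
  · intro a ha
    simp [ha]

lemma map_apply_self {γ α : Type} [DecidableEq α] (p : PMF γ) (g : γ → α) (x : γ) :
    (p.map g) (g x) = ∑' y, if g x = g y then p y else 0 := by
  rw [PMF.map_apply]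
  exact tsum_congr fun y => by split_ifs <;> rfl

/-- Entropy only depends on the partition induced by the map. -/
lemma map_congr_apply {γ α β : Type} (p : PMF γ) (g : γ → α) (g' : γ → β)
    (h : ∀ x y, g x = g y ↔ g' x = g' y) (x : γ) : (p.map g) (g x) = (p.map g') (g' x) := by
  classical
  rw [map_apply_self, map_apply_self]
  exact tsum_congr fun y => by simp only [h x y]

lemma He_congr {γ α β : Type} (p : PMF γ) (g : γ → α) (g' : γ → β)
    (h : ∀ x y, g x = g y ↔ g' x = g' y) : He (p.map g) = He (p.map g') := by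
  rw [He_map, He_map]
  exact tsum_congr fun x => by rw [map_congr_apply p g g' h x]

lemma map_mono_apply {γ α β : Type} (p : PMF γ) (g : γ → α) (g' : γ → β)
    (h : ∀ x y, g' x = g' y → g x = g y) (x : γ) : (p.map g') (g' x) ≤ (p.map g) (g x) := by
  classical
  rw [map_apply_self, map_apply_self]
  refine ENNReal.tsum_le_tsum fun y => ?_
  by_cases h1 : g' x = g' y
  · simp [h1, h x y h1]
  · simp [h1]

lemma le_map_apply {γ α : Type} (p : PMF γ) (g : γ → α) (x : γ) : p x ≤ (p.map g) (g x) := by
  classical
  rw [map_apply_self]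
  calc p x = (if g x = g x then p x else 0) := by simp
    _ ≤ _ := ENNReal.le_tsum x

lemma map_apply_ne_zero {γ α : Type} (p : PMF γ) (g : γ → α) {x : γ} (hx : p x ≠ 0) :
    (p.map g) (g x) ≠ 0 := by
  intro h
  exact hx (le_antisymm (h ▸ le_map_apply p g x) (zero_le))

/-- Pointwise comparison of the information densities. -/
lemma info_mono {γ α β : Type} (p : PMF γ) (g : γ → α) (g' : γ → β)
    (h : ∀ x y, g' x = g' y → g x = g y) (x : γ) :
    p x * ENNReal.ofReal (-Real.log ((p.map g) (g x)).toReal) ≤
      p x * ENNReal.ofReal (-Real.log ((p.map g') (g' x)).toReal) := by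
  by_cases hx : p x = 0
  · simp [hx]
  refine mul_le_mul_right (ENNReal.ofReal_le_ofReal ?_) _
  have h1 := map_mono_apply p g g' h x
  have h2 := map_apply_ne_zero p g' hx
  have h3 : 0 < ((p.map g') (g' x)).toReal := ENNReal.toReal_pos h2 ((p.map g').apply_ne_top _)
  have h4 : ((p.map g') (g' x)).toReal ≤ ((p.map g) (g x)).toReal :=
    ENNReal.toReal_mono ((p.map g).apply_ne_top _) h1
  linarith [Real.log_le_log h3 h4]

lemma He_mono {γ α β : Type} (p : PMF γ) (g : γ → α) (g' : γ → β)
    (h : ∀ x y, g' x = g' y → g x = g y) : He (p.map g) ≤ He (p.map g') := by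
  rw [He_map, He_map]
  exact ENNReal.tsum_le_tsum fun x => info_mono p g g' h x

lemma He_map_le {γ α : Type} (p : PMF γ) (g : γ → α) : He (p.map g) ≤ He p := by
  have := He_mono p g id (by intro x y h; simpa using congrArg g h)
  rwa [PMF.map_id] at this

/-- If refining a map does not change the entropy, then the refinement is determined on the
support. -/
lemma determined_of_entropy_eq {γ α β : Type} (p : PMF γ) (hfin : He p ≠ ⊤) (g : γ → α)
    (g' : γ → β) (h : ∀ x y, g' x = g' y → g x = g y) (heq : shannon (p.map g) = shannon (p.map g'))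
    {x y : γ} (hx : p x ≠ 0) (hy : p y ≠ 0) (hxy : g x = g y) : g' x = g' y := by
  classical
  have hg : He (p.map g) ≠ ⊤ := ne_top_of_le_ne_top hfin (He_map_le p g)
  have hg' : He (p.map g') ≠ ⊤ := ne_top_of_le_ne_top hfin (He_map_le p g')
  have hH : He (p.map g) = He (p.map g') := by
    rw [shannon_eq, shannon_eq] at heq
    exact (ENNReal.toReal_eq_toReal_iff' hg hg').1 heq
  -- pointwise equality
  have hpt : p x * ENNReal.ofReal (-Real.log ((p.map g) (g x)).toReal) =
      p x * ENNReal.ofReal (-Real.log ((p.map g') (g' x)).toReal) := by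
    refine le_antisymm (info_mono p g g' h x) ?_
    by_contra hlt
    push Not at hlt
    have hlt' : ∑' x, p x * ENNReal.ofReal (-Real.log ((p.map g) (g x)).toReal) <
        ∑' x, p x * ENNReal.ofReal (-Real.log ((p.map g') (g' x)).toReal) := by
      refine ENNReal.tsum_lt_tsum (i := x) ?_ (fun z => info_mono p g g' h z) hlt
      rw [← He_map]; exact hg
    rw [← He_map, ← He_map] at hlt'
    exact absurd hH hlt'.ne
  have hle := map_mono_apply p g g' h x
  have h1 : 0 < ((p.map g) (g x)).toReal :=
    ENNReal.toReal_pos (map_apply_ne_zero p g hx) ((p.map g).apply_ne_top _)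
  have h2 : 0 < ((p.map g') (g' x)).toReal :=
    ENNReal.toReal_pos (map_apply_ne_zero p g' hx) ((p.map g').apply_ne_top _)
  have hpt2 : ENNReal.ofReal (-Real.log ((p.map g) (g x)).toReal) =
      ENNReal.ofReal (-Real.log ((p.map g') (g' x)).toReal) :=
    (ENNReal.mul_right_inj hx (p.apply_ne_top x)).1 hpt
  have hlog1 : 0 ≤ -Real.log ((p.map g) (g x)).toReal := by
    have := Real.log_nonpos h1.le (toReal_le_one _ _)
    linarith
  have hlog2 : 0 ≤ -Real.log ((p.map g') (g' x)).toReal := by
    have := Real.log_nonpos h2.le (toReal_le_one _ _)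
    linarith
  have hlog : Real.log ((p.map g) (g x)).toReal = Real.log ((p.map g') (g' x)).toReal := by
    have := (ENNReal.ofReal_eq_ofReal_iff hlog1 hlog2).1 hpt2
    linarith
  have heq2 : ((p.map g) (g x)).toReal = ((p.map g') (g' x)).toReal :=
    Real.log_injOn_pos h1 h2 hlog
  have heq3 : (p.map g) (g x) = (p.map g') (g' x) :=
    (ENNReal.toReal_eq_toReal_iff' ((p.map g).apply_ne_top _) ((p.map g').apply_ne_top _)).1 heq2
  by_contra hne
  -- then the mass of `y` is missing
  have : (p.map g') (g' x) + p y ≤ (p.map g) (g x) := by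
    rw [map_apply_self, map_apply_self]
    have hy1 : p y = ∑' z, if z = y then p y else 0 := by
      rw [tsum_ite_eq]
    rw [hy1, ← ENNReal.tsum_add]
    refine ENNReal.tsum_le_tsum fun z => ?_
    by_cases hz : z = y
    · subst hz
      simp [hne, hxy]
    · by_cases hz2 : g' x = g' z
      · simp [hz, hz2, h x z hz2]
      · simp [hz, hz2]
  rw [heq3] at this
  have hfin' : (p.map g') (g' x) ≠ ⊤ := (p.map g').apply_ne_top _
  have : p y ≤ 0 := by
    have h5 : (p.map g') (g' x) + p y ≤ (p.map g') (g' x) + 0 := by simpa using this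
    exact (ENNReal.add_le_add_iff_left hfin').1 h5
  exact hy (le_antisymm this (zero_le))

end Pool.Agent.H.MP_827d9d_co
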