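import Pool.Agent.H.MP_827d9d_co.Entropy

/-!
# Additivity of the entropy forces independence
-/

namespace Pool.Agent.H.MP_827d9d_co

open scoped ENNReal
open Real (negMulLog)

lemma hasSum_toReal {α : Type} (p : PMF α) : HasSum (fun a => (p a).toReal) 1 := by
  have h2 := ENNReal.hasSum_toReal (f := p) (by rw [p.tsum_coe]; exact ENNReal.one_ne_top)
  rw [← ENNReal.tsum_toReal_eq (fun a => p.apply_ne_top a), p.tsum_coe] at h2
  simpa using h2

lemma hasSum_mul_toReal {α β : Type} (p : PMF α) (q : PMF β) :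
    HasSum (fun x : α × β => (p x.1).toReal * (q x.2).toReal) 1 := by
  have h0 : ∑' x : α × β, p x.1 * q x.2 = 1 := by
    rw [ENNReal.tsum_prod (f := fun a b => p a * q b)]
    have : ∀ a, ∑' b, p a * q b = p a := by
      intro a
      rw [ENNReal.tsum_mul_left, q.tsum_coe, mul_one]
    rw [tsum_congr this, p.tsum_coe]
  have h2 := ENNReal.hasSum_toReal (f := fun x : α × β => p x.1 * q x.2)
    (by rw [h0]; exact ENNReal.one_ne_top)
  rw [← ENNReal.tsum_toReal_eq
    (fun x => ENNReal.mul_ne_top (p.apply_ne_top _) (q.apply_ne_top _)), h0] at h2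
  simpa [ENNReal.toReal_mul] using h2

/-- Real-valued form of the entropy as an expectation. -/
lemma hasSum_info {γ α : Type} (p : PMF γ) (g : γ → α) (hfin : He (p.map g) ≠ ⊤) :
    HasSum (fun x => (p x).toReal * (-Real.log ((p.map g) (g x)).toReal)) (shannon (p.map g)) := by
  have h1 : ∑' x, p x * ENNReal.ofReal (-Real.log ((p.map g) (g x)).toReal) ≠ ⊤ := by
    rw [← He_map]; exact hfin
  have h2 := ENNReal.hasSum_toReal h1
  rw [← ENNReal.tsum_toReal_eq
    (fun x => ENNReal.mul_ne_top (p.apply_ne_top _) ENNReal.ofReal_ne_top),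
    ← He_map, ← shannon_eq] at h2
  convert! h2 using 1
  funext x
  rw [ENNReal.toReal_mul]
  by_cases hx : p x = 0
  · simp [hx]
  · congr 1
    rw [ENNReal.toReal_ofReal]
    have := Real.log_nonpos (x := ((p.map g) (g x)).toReal) ENNReal.toReal_nonneg
      (toReal_le_one _ _)
    linarith

lemma gibbs_term {x a b : ℝ} (hx : 0 ≤ x) (ha : 0 ≤ a) (hb : 0 ≤ b) (hxa : x ≤ a) (hxb : x ≤ b) :
    0 ≤ x * (-Real.log a) + x * (-Real.log b) - x * (-Real.log x) - x + a * b := by
  rcases hx.eq_or_lt with rfl | hx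
  · simp; positivity
  have ha' : 0 < a := lt_of_lt_of_le hx hxa
  have hb' : 0 < b := lt_of_lt_of_le hx hxb
  have h1 : Real.log (a * b / x) ≤ a * b / x - 1 := Real.log_le_sub_one_of_pos (by positivity)
  have h2 : Real.log (a * b / x) = Real.log a + Real.log b - Real.log x := by
    rw [Real.log_div (by positivity) (by positivity), Real.log_mul (by positivity) (by positivity)]
  have h3 : x * (a * b / x) = a * b := by field_simp
  have h4 : x * Real.log (a * b / x) ≤ x * (a * b / x - 1) := mul_le_mul_of_nonneg_left h1 hx.le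
  have h5 : x * (a * b / x - 1) = a * b - x := by rw [mul_sub, h3, mul_one]
  rw [h2, h5] at h4
  nlinarith

lemma gibbs_eq {x a b : ℝ} (hx : 0 ≤ x) (hxa : x ≤ a) (hxb : x ≤ b)
    (h : x * (-Real.log a) + x * (-Real.log b) - x * (-Real.log x) - x + a * b = 0) :
    x = a * b := by
  rcases hx.eq_or_lt with rfl | hx
  · simpa using h.symm
  have ha' : 0 < a := lt_of_lt_of_le hx hxa
  have hb' : 0 < b := lt_of_lt_of_le hx hxb
  by_contra hne
  have hne' : a * b / x ≠ 1 := by
    intro h'
    apply hne
    field_simp at h'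
    linarith
  have h1 : Real.log (a * b / x) < a * b / x - 1 := Real.log_lt_sub_one_of_pos (by positivity) hne'
  have h2 : Real.log (a * b / x) = Real.log a + Real.log b - Real.log x := by
    rw [Real.log_div (by positivity) (by positivity), Real.log_mul (by positivity) (by positivity)]
  have h3 : x * (a * b / x) = a * b := by field_simp
  have h4 : x * Real.log (a * b / x) < x * (a * b / x - 1) := mul_lt_mul_of_pos_left h1 hx
  have h5 : x * (a * b / x - 1) = a * b - x := by rw [mul_sub, h3, mul_one]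
  rw [h2, h5] at h4
  nlinarith

lemma fst_le {α β : Type} (q : PMF (α × β)) (a : α) (b : β) :
    q (a, b) ≤ (q.map Prod.fst) a := le_map_apply q Prod.fst (a, b)

lemma snd_le {α β : Type} (q : PMF (α × β)) (a : α) (b : β) :
    q (a, b) ≤ (q.map Prod.snd) b := le_map_apply q Prod.snd (a, b)

/-- If the joint entropy is the sum of the entropies, then the joint law is the product. -/
lemma product_of_entropy_add {α β : Type} (q : PMF (α × β)) (hfin : He q ≠ ⊤)
    (heq : shannon q = shannon (q.map Prod.fst) + shannon (q.map Prod.snd)) (a : α) (b : β) :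
    (q (a, b)).toReal = ((q.map Prod.fst) a).toReal * ((q.map Prod.snd) b).toReal := by
  have hf1 : He (q.map Prod.fst) ≠ ⊤ := ne_top_of_le_ne_top hfin (He_map_le q _)
  have hf2 : He (q.map Prod.snd) ≠ ⊤ := ne_top_of_le_ne_top hfin (He_map_le q _)
  have s1 := hasSum_info q Prod.fst hf1
  have s2 := hasSum_info q Prod.snd hf2
  have s3 := hasSum_info q id (by rw [PMF.map_id]; exact hfin)
  rw [PMF.map_id] at s3
  have s4 := hasSum_toReal q
  have s5 := hasSum_mul_toReal (q.map Prod.fst) (q.map Prod.snd)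
  have s6 := (((s1.add s2).sub s3).sub s4).add s5
  rw [heq] at s6
  have hval : shannon (q.map Prod.fst) + shannon (q.map Prod.snd) -
      (shannon (q.map Prod.fst) + shannon (q.map Prod.snd)) - 1 + 1 = 0 := by ring
  rw [hval] at s6
  have hnn : ∀ x : α × β, 0 ≤ (q x).toReal * (-Real.log ((q.map Prod.fst) x.1).toReal) +
      (q x).toReal * (-Real.log ((q.map Prod.snd) x.2).toReal) -
      (q x).toReal * (-Real.log (q x).toReal) - (q x).toReal +
      ((q.map Prod.fst) x.1).toReal * ((q.map Prod.snd) x.2).toReal := by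
    intro x
    refine gibbs_term ENNReal.toReal_nonneg ENNReal.toReal_nonneg ENNReal.toReal_nonneg ?_ ?_
    · exact ENNReal.toReal_mono ((q.map Prod.fst).apply_ne_top _) (fst_le q x.1 x.2)
    · exact ENNReal.toReal_mono ((q.map Prod.snd).apply_ne_top _) (snd_le q x.1 x.2)
  have hz := (hasSum_zero_iff_of_nonneg hnn).1 s6
  have hz' := congrFun hz (a, b)
  refine gibbs_eq ENNReal.toReal_nonneg ?_ ?_ hz'
  · exact ENNReal.toReal_mono ((q.map Prod.fst).apply_ne_top _) (fst_le q a b)
  · exact ENNReal.toReal_mono ((q.map Prod.snd).apply_ne_top _) (snd_le q a b)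

/-- If the entropies of two maps add up, then values on the support can be combined. -/
lemma combine_of_entropy_add {γ α β : Type} (p : PMF γ) (hfin : He p ≠ ⊤) (g : γ → α) (k : γ → β)
    (heq : shannon (p.map fun x => (g x, k x)) = shannon (p.map g) + shannon (p.map k))
    {x y : γ} (hx : p x ≠ 0) (hy : p y ≠ 0) :
    ((p.map fun x => (g x, k x)) (g x, k y)).toReal =
      ((p.map g) (g x)).toReal * ((p.map k) (k y)).toReal ∧
    ∃ z, p z ≠ 0 ∧ g z = g x ∧ k z = k y := by
  classical
  set q := p.map fun x => (g x, k x) with hq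
  have hq1 : q.map Prod.fst = p.map g := by rw [hq, PMF.map_comp]; rfl
  have hq2 : q.map Prod.snd = p.map k := by rw [hq, PMF.map_comp]; rfl
  have hqf : He q ≠ ⊤ := ne_top_of_le_ne_top hfin (He_map_le p _)
  have h := product_of_entropy_add q hqf (by rw [hq1, hq2]; exact heq) (g x) (k y)
  rw [hq1, hq2] at h
  refine ⟨h, ?_⟩
  have hpos : 0 < ((p.map g) (g x)).toReal * ((p.map k) (k y)).toReal :=
    mul_pos (ENNReal.toReal_pos (map_apply_ne_zero p g hx) ((p.map g).apply_ne_top _))
      (ENNReal.toReal_pos (map_apply_ne_zero p k hy) ((p.map k).apply_ne_top _))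
  rw [← h] at hpos
  have hne : q (g x, k y) ≠ 0 := by
    intro h0
    rw [h0] at hpos
    simp at hpos
  have hmem : (g x, k y) ∈ q.support := hne
  rw [hq, PMF.support_map] at hmem
  obtain ⟨z, hz, hz'⟩ := hmem
  exact ⟨z, hz, congrArg Prod.fst hz', congrArg Prod.snd hz'⟩

end Pool.Agent.H.MP_827d9d_co
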