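import Mathlib

/-!
The matroid of a finite family of vectors over `ℚ`.
-/

namespace Pool.Agent.H.MP_827d9d_co

open Set

variable {E : Type} [Finite E] {W : Type} [AddCommGroup W] [Module ℚ W]

lemma finrank_span_image {f : E → W} {I : Set E} (hI : LinearIndepOn ℚ f I) :
    Module.finrank ℚ (Submodule.span ℚ (f '' I)) = I.ncard := by
  classical
  have : Fintype I := Fintype.ofFinite I
  have h := finrank_span_eq_card (R := ℚ) (b := fun x : I => f x) hI
  have hr : Set.range (fun x : I => f x) = f '' I := by
    ext w; simp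
  rw [hr] at h
  rw [h, ← Nat.card_eq_fintype_card]; rfl

/-- The linear matroid of a finite family of vectors over `ℚ`. -/
noncomputable def linMat (f : E → W) : Matroid E :=
  (IndepMatroid.ofFinite (Set.finite_univ) (fun I => LinearIndepOn ℚ f I)
    (linearIndepOn_empty ℚ f) (fun _ _ hJ hIJ => hJ.mono hIJ)
    (by
      intro I J hI hJ hlt
      by_contra hcon
      push Not at hcon
      have hsub : Submodule.span ℚ (f '' J) ≤ Submodule.span ℚ (f '' I) := by
        rw [Submodule.span_le]
        rintro _ ⟨e, he, rfl⟩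
        by_cases heI : e ∈ I
        · exact Submodule.subset_span ⟨e, heI, rfl⟩
        · by_contra hn
          exact hcon e he heI ((linearIndepOn_insert heI).2 ⟨hI, hn⟩)
      have hfin : Module.Finite ℚ (Submodule.span ℚ (f '' I)) :=
        Module.Finite.span_of_finite ℚ (Set.toFinite _)
      have := Submodule.finrank_mono hsub
      rw [finrank_span_image hI, finrank_span_image hJ] at this
      omega)
    (fun I _ => Set.subset_univ I)).matroid

@[simp] lemma linMat_E (f : E → W) : (linMat f).E = Set.univ := rfl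

@[simp] lemma linMat_indep (f : E → W) (I : Set E) :
    (linMat f).Indep I ↔ LinearIndepOn ℚ f I := Iff.rfl

instance linMat_finite (f : E → W) : (linMat f).Finite := ⟨Set.toFinite _⟩

lemma mem_span_of_isBasis {f : E → W} {I A : Set E} (hI : (linMat f).IsBasis I A) :
    Submodule.span ℚ (f '' A) = Submodule.span ℚ (f '' I) := by
  apply le_antisymm
  · rw [Submodule.span_le]
    rintro _ ⟨e, he, rfl⟩
    by_cases heI : e ∈ I
    · exact Submodule.subset_span ⟨e, heI, rfl⟩
    · by_contra hn
      have : (linMat f).Indep (insert e I) := (linearIndepOn_insert heI).2 ⟨hI.indep, hn⟩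
      exact heI (hI.mem_of_insert_indep he this)
  · exact Submodule.span_mono (Set.image_mono hI.subset)

lemma mem_closure_linMat {f : E → W} {A : Set E} {e : E} :
    e ∈ (linMat f).closure A ↔ f e ∈ Submodule.span ℚ (f '' A) := by
  obtain ⟨I, hI⟩ := (linMat f).exists_isBasis A (by simp)
  rw [← hI.closure_eq_closure, mem_span_of_isBasis hI, hI.indep.mem_closure_iff']
  have hind : LinearIndepOn ℚ f I := hI.indep
  rw [hind.mem_span_iff]
  simp

lemma eRk_ne_top (M : Matroid E) (A : Set E) : M.eRk A ≠ ⊤ := by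
  have h1 : M.eRk A ≤ A.encard := M.eRk_le_encard A
  have h2 : A.encard ≠ ⊤ := by
    rw [Set.encard_ne_top_iff]; exact Set.toFinite A
  exact ne_top_of_le_ne_top h2 h1

/-- If `f z` lies in the span of the complement, then `z` raises the dual rank. -/
lemma dual_rank_succ (f : E → W) {A : Set E} {z : E} (hz : z ∉ A)
    (h : f z ∈ Submodule.span ℚ (f '' (insert z A)ᶜ)) :
    ((linMat f)✶.eRk (insert z A)).toNat = ((linMat f)✶.eRk A).toNat + 1 := by
  set M := linMat f with hM
  have e1 := M.eRk_dual_add_eRank (insert z A) (by simp [hM])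
  have e2 := M.eRk_dual_add_eRank A (by simp [hM])
  have hE : M.E = Set.univ := rfl
  rw [hE, ← Set.compl_eq_univ_sdiff] at e1 e2
  have hc : M.eRk Aᶜ = M.eRk (insert z A)ᶜ := by
    have : Aᶜ = insert z (insert z A)ᶜ := by
      ext x
      by_cases hx : x = z
      · subst hx; simp [hz]
      · simp [hx]
    rw [this, ← Matroid.eRk_insert_closure_eq]
    have hzc : z ∈ M.closure (insert z A)ᶜ := mem_closure_linMat.2 h
    rw [Set.insert_eq_of_mem hzc, Matroid.eRk_closure_eq]
  rw [← hc, Set.encard_insert_of_notMem hz] at e1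
  have f1 := eRk_ne_top M✶ (insert z A)
  have f2 := eRk_ne_top M✶ A
  have f3 : M.eRank ≠ ⊤ := by rw [Matroid.eRank_def]; exact eRk_ne_top M _
  have f4 := eRk_ne_top M Aᶜ
  have f5 : A.encard ≠ ⊤ := by
    rw [Set.encard_ne_top_iff]; exact Set.toFinite A
  lift M✶.eRk (insert z A) to ℕ using f1 with a
  lift M✶.eRk A to ℕ using f2 with b
  lift M.eRank to ℕ using f3 with c
  lift M.eRk Aᶜ to ℕ using f4 with d
  lift A.encard to ℕ using f5 with g
  norm_cast at e1 e2
  simp only [ENat.toNat_natCast]
  omega

/-- If `f z` is outside the span of the complement, then `z` does not raise the dual rank. -/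
lemma dual_rank_eq (f : E → W) {A : Set E} {z : E} (hz : z ∉ A)
    (h : f z ∉ Submodule.span ℚ (f '' (insert z A)ᶜ)) :
    ((linMat f)✶.eRk (insert z A)).toNat = ((linMat f)✶.eRk A).toNat := by
  set M := linMat f with hM
  have e1 := M.eRk_dual_add_eRank (insert z A) (by simp [hM])
  have e2 := M.eRk_dual_add_eRank A (by simp [hM])
  have hE : M.E = Set.univ := rfl
  rw [hE, ← Set.compl_eq_univ_sdiff] at e1 e2
  have hc : M.eRk Aᶜ = M.eRk (insert z A)ᶜ + 1 := by
    have : Aᶜ = insert z (insert z A)ᶜ := by
      ext x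
      by_cases hx : x = z
      · subst hx; simp [hz]
      · simp [hx]
    rw [this]
    refine Matroid.eRk_insert_eq_add_one ⟨by simp [hM], ?_⟩
    intro hzc
    exact h (mem_closure_linMat.1 hzc)
  rw [Set.encard_insert_of_notMem hz] at e1
  have f1 := eRk_ne_top M✶ (insert z A)
  have f2 := eRk_ne_top M✶ A
  have f3 : M.eRank ≠ ⊤ := by rw [Matroid.eRank_def]; exact eRk_ne_top M _
  have f4 := eRk_ne_top M Aᶜ
  have f6 := eRk_ne_top M (insert z A)ᶜ
  have f5 : A.encard ≠ ⊤ := by
    rw [Set.encard_ne_top_iff]; exact Set.toFinite A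
  lift M✶.eRk (insert z A) to ℕ using f1 with a
  lift M✶.eRk A to ℕ using f2 with b
  lift M.eRank to ℕ using f3 with c
  lift M.eRk Aᶜ to ℕ using f4 with d
  lift M.eRk (insert z A)ᶜ to ℕ using f6 with d'
  lift A.encard to ℕ using f5 with g
  norm_cast at e1 e2 hc
  simp only [ENat.toNat_natCast]
  omega

end Pool.Agent.H.MP_827d9d_co
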