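import Pool.Agent.H.MP_827d9d_co.Core4
import Pool.Agent.H.MP_827d9d_co.Entropy2
import Pool.Agent.H.MP_827d9d_co.LinMat

/-!
# The dual matroid has no representation of degree `3 m`, `3 ∤ m`
-/

namespace Pool.Agent.H.MP_827d9d_co

open scoped ENNReal
open Real (negMulLog)
open El

lemma map_congr_apply' {γ α β : Type} (p : PMF γ) (g : γ → α) (g' : γ → β) (x : γ)
    (h : ∀ y, p y ≠ 0 → (g x = g y ↔ g' x = g' y)) : (p.map g) (g x) = (p.map g') (g' x) := by
  classical
  rw [map_apply_self, map_apply_self]
  refine tsum_congr fun y => ?_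
  by_cases hy : p y = 0
  · simp [hy]
  · simp only [h y hy]

/-- A distribution that is constant on its support. -/
lemma uniform_support {α : Type} (q : PMF α) (h : ∀ a b, q a ≠ 0 → q b ≠ 0 → q a = q b) :
    shannon q = Real.log (Nat.card q.support) := by
  classical
  obtain ⟨a0, ha0⟩ := q.support_nonempty
  have ha0' : q a0 ≠ 0 := ha0
  have hconst : ∀ a, a ∈ q.support → q a = q a0 := fun a ha => h a a0 ha ha0
  have hfin : q.support.Finite := by
    by_contra hinf
    have hinf' : Infinite q.support := Set.infinite_coe_iff.2 hinf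
    have h1 : ∑' a : q.support, q a ≤ 1 := by
      rw [← q.tsum_coe]
      exact ENNReal.tsum_comp_le_tsum_of_injective Subtype.val_injective _
    have h2 : ∑' a : q.support, q a = ⊤ := by
      rw [tsum_congr (fun a : q.support => hconst a a.2)]
      exact ENNReal.tsum_const_eq_top_of_ne_zero ha0'
    rw [h2] at h1
    exact absurd h1 (by simp)
  have hcard : (hfin.toFinset.card : ℝ≥0∞) * q a0 = 1 := by
    rw [← q.tsum_coe, tsum_eq_sum (s := hfin.toFinset)
      (by intro a ha; simpa [PMF.mem_support_iff] using ha)]
    rw [Finset.sum_congr rfl (fun a ha => hconst a (hfin.mem_toFinset.1 ha)), Finset.sum_const,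
      nsmul_eq_mul]
  have hcardR : (hfin.toFinset.card : ℝ) * (q a0).toReal = 1 := by
    have := congrArg ENNReal.toReal hcard
    simpa [ENNReal.toReal_mul] using this
  have hne : (hfin.toFinset.card : ℝ) ≠ 0 := by
    intro h0
    rw [h0] at hcardR
    simp at hcardR
  have hq : (q a0).toReal = ((hfin.toFinset.card : ℝ))⁻¹ := by
    field_simp
    linarith
  have hs : shannon q = hfin.toFinset.card * negMulLog (q a0).toReal := by
    unfold shannon
    rw [tsum_eq_sum (s := hfin.toFinset) (by
      intro a ha
      have : q a = 0 := by simpa [PMF.mem_support_iff] using ha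
      simp [this])]
    rw [Finset.sum_congr rfl (fun a ha => by rw [hconst a (hfin.mem_toFinset.1 ha)]),
      Finset.sum_const, nsmul_eq_mul]
  have hc : Nat.card q.support = hfin.toFinset.card := by
    rw [Nat.card_coe_set_eq, Set.ncard_eq_toFinset_card _ hfin]
  rw [hs, hq, hc, Real.negMulLog, Real.log_inv]
  field_simp

section

variable (p : PMF (El → ℕ))

/-- The code: the support of the joint law. -/
def code : Set (El → ℕ) := {x | p x ≠ 0}

variable {p}

lemma restrict_eq_iff {A : Set El} {x y : El → ℕ} :
    ((fun x (i : A) => x i : (El → ℕ) → (A → ℕ)) x) = (fun x (i : A) => x i) y ↔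
      ∀ e ∈ A, x e = y e := by
  constructor
  · intro h e he
    exact congrFun h ⟨e, he⟩
  · intro h
    funext e
    exact h e e.2

/-- The hypothesis on the joint law. -/
def Hyp (p : PMF (El → ℕ)) (v : ℕ) : Prop :=
  (Summable fun x => Real.negMulLog (p x).toReal) ∧
    ∀ A : Set El, Real.log v * (((linMat vec)✶.eRk A).toNat : ℝ) =
      shannon (p.map fun x (i : A) => x i)

lemma P2_of {v : ℕ} (hp : Hyp p v) : P2 (code p) := by
  intro φ z hφ c hc c' hc' hagree
  set A : Set El := {e | e ≠ z ∧ φ (vec e) ≠ 0} with hA
  have hzA : z ∉ A := by simp [hA]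
  have hspan : vec z ∉ Submodule.span ℚ (vec '' (insert z A)ᶜ) := by
    intro hmem
    have hle : Submodule.span ℚ (vec '' (insert z A)ᶜ) ≤ LinearMap.ker φ := by
      rw [Submodule.span_le]
      rintro _ ⟨e, he, rfl⟩
      simp only [Set.mem_compl_iff, Set.mem_insert_iff, not_or] at he
      simp only [hA, Set.mem_ofPred_eq, not_and, not_not] at he
      exact he.2 he.1
    exact hφ (hle hmem)
  have hr := dual_rank_eq vec hzA hspan
  have heq : shannon (p.map fun x (i : A) => x i) =
      shannon (p.map fun x (i : (insert z A : Set El)) => x i) := by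
    rw [← hp.2 A, ← hp.2 (insert z A), hr]
  have := determined_of_entropy_eq p (He_ne_top hp.1) _ _
    (fun x y h => restrict_eq_iff.2 fun e he =>
      restrict_eq_iff.1 h e (Set.mem_insert_of_mem z he)) heq hc hc'
    (restrict_eq_iff.2 fun e he => hagree e he.1 he.2)
  exact restrict_eq_iff.1 this z (Set.mem_insert z A)

lemma dual_rank_empty : ((linMat vec)✶.eRk ∅).toNat = 0 := by
  simp

lemma shannon_congr {γ α β : Type} (p : PMF γ) (g : γ → α) (g' : γ → β)
    (h : ∀ x y, g x = g y ↔ g' x = g' y) : shannon (p.map g) = shannon (p.map g') := by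
  rw [shannon_eq, shannon_eq, He_congr p g g' h]

/-- Additivity of entropy for an element outside the dual closure. -/
lemma shannon_add {v : ℕ} (hp : Hyp p v) {A : Set El} {z : El} (hz : z ∉ A)
    (h : vec z ∈ Submodule.span ℚ (vec '' (insert z A)ᶜ)) :
    shannon (p.map fun x => ((fun i : A => x i), x z)) =
      shannon (p.map fun x (i : A) => x i) + shannon (p.map fun x => x z) := by
  have hr := dual_rank_succ vec hz h
  have h1 : ((linMat vec)✶.eRk {z}).toNat = 1 := by
    have := dual_rank_succ vec (A := ∅) (z := z) (by simp)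
      (by
        refine Submodule.span_mono (Set.image_mono ?_) h
        intro e he
        simp only [Set.mem_compl_iff, Set.mem_insert_iff, not_or] at he
        simpa using he.1)
    rw [dual_rank_empty] at this
    simpa using this
  have e1 : shannon (p.map fun x => ((fun i : A => x i), x z)) =
      shannon (p.map fun x (i : (insert z A : Set El)) => x i) := by
    apply shannon_congr
    intro x y
    constructor
    · intro hxy
      rw [Prod.ext_iff] at hxy
      refine restrict_eq_iff.2 fun e he => ?_
      rcases Set.mem_insert_iff.1 he with rfl | he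
      · exact hxy.2
      · exact restrict_eq_iff.1 hxy.1 e he
    · intro hxy
      have h' := restrict_eq_iff.1 hxy
      exact Prod.ext (restrict_eq_iff.2 fun e he => h' e (Set.mem_insert_of_mem z he))
        (h' z (Set.mem_insert z A))
  have e2 : shannon (p.map fun x => x z) = shannon (p.map fun x (i : ({z} : Set El)) => x i) := by
    apply shannon_congr
    intro x y
    constructor
    · intro hxy
      refine restrict_eq_iff.2 fun e he => ?_
      rw [Set.mem_singleton_iff.1 he]; exact hxy
    · intro hxy
      exact restrict_eq_iff.1 hxy z rfl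
  rw [e1, e2, ← hp.2, ← hp.2, ← hp.2, hr, h1]
  push_cast
  ring

lemma P1_of {v : ℕ} (hp : Hyp p v) : P1 (code p) := by
  intro z Z hzZ hspan c hc c' hc'
  set A : Set El := (insert z Z)ᶜ with hA
  have hzA : z ∉ A := by simp [hA]
  have hcompl : (insert z A)ᶜ = Z := by
    ext e
    by_cases he : e = z
    · subst he; simp [hzZ]
    · simp [hA, he]
  have hadd := shannon_add hp hzA (by rw [hcompl]; exact hspan)
  obtain ⟨-, w, hw, hwA, hwz⟩ := combine_of_entropy_add p (He_ne_top hp.1)
    (fun x (i : A) => x i) (fun x => x z) hadd hc hc'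
  refine ⟨w, hw, hwz, fun e heZ hez => ?_⟩
  exact restrict_eq_iff.1 hwA e (by simp [hA, heZ, hez])

lemma card_val {v : ℕ} (hv : 2 ≤ v) (hp : Hyp p v) : Nat.card (Val (code p) (tt 0)) = v := by
  classical
  have h1 := P1_of hp
  have h2 := P2_of hp
  have hne : (code p).Nonempty := by
    obtain ⟨x, hx⟩ := p.support_nonempty
    exact ⟨x, hx⟩
  -- probabilities agree
  set A : Set El := {rho 0 1, rho 0 2, rho 0 3, tt 1} with hA
  have key : ∀ x ∈ code p, (p.map fun x => x (rho 0 0)) (x (rho 0 0)) =
      (p.map fun x => x (tt 0)) (x (tt 0)) := by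
    intro x hx
    have hx' : p x ≠ 0 := hx
    have a1 := shannon_add hp (A := A) (z := rho 0 0) (by simp [hA]) (by
      have : vec (rho 0 0) = vec (rho 1 0) + vec (tt 0) := by
        ext k; fin_cases k <;> simp [vec]
      rw [this]
      refine Submodule.add_mem _ (Submodule.subset_span ⟨_, ?_, rfl⟩)
        (Submodule.subset_span ⟨_, ?_, rfl⟩) <;> simp [hA])
    have a2 := shannon_add hp (A := A) (z := tt 0) (by simp [hA]) (by
      have : vec (tt 0) = vec (rho 0 0) - vec (rho 1 0) := by
        ext k; fin_cases k <;> simp [vec]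
      rw [this]
      refine Submodule.sub_mem _ (Submodule.subset_span ⟨_, ?_, rfl⟩)
        (Submodule.subset_span ⟨_, ?_, rfl⟩) <;> simp [hA])
    have b1 := (combine_of_entropy_add p (He_ne_top hp.1)
      (fun x (i : A) => x i) (fun x => x (rho 0 0)) a1 hx' hx').1
    have b2 := (combine_of_entropy_add p (He_ne_top hp.1)
      (fun x (i : A) => x i) (fun x => x (tt 0)) a2 hx' hx').1
    have b3 : (p.map fun x => ((fun i : A => x i), x (rho 0 0)))
        ((fun i : A => x i), x (rho 0 0)) =
        (p.map fun x => ((fun i : A => x i), x (tt 0))) ((fun i : A => x i), x (tt 0)) := by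
      refine map_congr_apply' p (fun x => ((fun i : A => x i), x (rho 0 0)))
        (fun x => ((fun i : A => x i), x (tt 0))) x ?_
      intro y hy
      have hy' : y ∈ code p := hy
      constructor
      · intro hxy
        have hxy' := Prod.ext_iff.1 hxy
        have hr := restrict_eq_iff.1 hxy'.1
        refine Prod.ext hxy'.1 ?_
        refine det_t h2 hx hy' ?_ (hr _ (by simp [hA]))
        intro s
        fin_cases s
        · exact hxy'.2
        · exact hr _ (by simp [hA])
        · exact hr _ (by simp [hA])
        · exact hr _ (by simp [hA])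
      · intro hxy
        have hxy' := Prod.ext_iff.1 hxy
        have hr := restrict_eq_iff.1 hxy'.1
        refine Prod.ext hxy'.1 ?_
        refine det_x h2 0 hx hy' ?_ hxy'.2 (hr _ (by simp [hA]))
        intro s hs
        fin_cases s
        · exact absurd rfl hs
        · exact hr _ (by simp [hA])
        · exact hr _ (by simp [hA])
        · exact hr _ (by simp [hA])
    rw [b3] at b1
    have hpos : ((p.map fun x (i : A) => x i) (fun i : A => x i)).toReal ≠ 0 := by
      have := ENNReal.toReal_pos (map_apply_ne_zero p (fun x (i : A) => x i) hx')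
        ((p.map fun x (i : A) => x i).apply_ne_top _)
      exact this.ne'
    have b4 : ((p.map fun x => x (rho 0 0)) (x (rho 0 0))).toReal =
        ((p.map fun x => x (tt 0)) (x (tt 0))).toReal := by
      apply mul_left_cancel₀ hpos
      rw [← b1, ← b2]
    exact (ENNReal.toReal_eq_toReal_iff' (PMF.apply_ne_top _ _) (PMF.apply_ne_top _ _)).1 b4
  set q := p.map fun x => x (tt 0) with hq
  have hsupp : q.support = Val (code p) (tt 0) := by
    rw [hq, PMF.support_map]
    ext a
    constructor
    · rintro ⟨x, hx, rfl⟩; exact ⟨x, hx, rfl⟩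
    · rintro ⟨x, hx, rfl⟩; exact ⟨x, hx, rfl⟩
  have hconst : ∀ a b, q a ≠ 0 → q b ≠ 0 → q a = q b := by
    intro a b ha hb
    have ha' : a ∈ Val (code p) (tt 0) := by rw [← hsupp]; exact ha
    have hb' : b ∈ Val (code p) (tt 0) := by rw [← hsupp]; exact hb
    obtain ⟨x, hx, rfl⟩ := ha'
    obtain ⟨w, hw, hw1, hw2⟩ := exists_single h1 hne 0 hb' (a := x (rho 0 0)) ⟨x, hx, rfl⟩
    rw [← key x hx, ← hw1, key w hw, hw2]
  have hs := uniform_support q hconst
  have hr1 : ((linMat vec)✶.eRk {tt 0}).toNat = 1 := by
    have := dual_rank_succ vec (A := ∅) (z := tt 0) (by simp)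
      (by
        have : vec (tt 0) = vec (rho 0 0) - vec (rho 1 0) := by
          ext k; fin_cases k <;> simp [vec]
        rw [this]
        refine Submodule.sub_mem _ (Submodule.subset_span ⟨_, ?_, rfl⟩)
          (Submodule.subset_span ⟨_, ?_, rfl⟩) <;> simp)
    rw [dual_rank_empty] at this
    simpa using this
  have hs2 : shannon q = Real.log v := by
    have e2 : shannon q = shannon (p.map fun x (i : ({tt 0} : Set El)) => x i) := by
      apply shannon_congr
      intro x y
      constructor
      · intro hxy
        refine restrict_eq_iff.2 fun e he => ?_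
        rw [Set.mem_singleton_iff.1 he]; exact hxy
      · intro hxy
        exact restrict_eq_iff.1 hxy _ rfl
    rw [e2, ← hp.2, hr1]
    simp
  rw [hs2, hsupp] at hs
  have hvpos : (0 : ℝ) < v := by
    have : 0 < v := by omega
    exact_mod_cast this
  have hcpos : 0 < Nat.card (Val (code p) (tt 0)) := by
    rcases Nat.eq_zero_or_pos (Nat.card (Val (code p) (tt 0))) with h0 | h0
    · rw [h0] at hs
      simp only [Nat.cast_zero, Real.log_zero] at hs
      have : 0 < Real.log v := Real.log_pos (by exact_mod_cast (by omega : 1 < v))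
      linarith
    · exact h0
  have := Real.log_injOn_pos (Set.mem_Ioi.2 hvpos)
    (Set.mem_Ioi.2 (by exact_mod_cast hcpos : (0 : ℝ) < (Nat.card (Val (code p) (tt 0)) : ℝ))) hs
  exact_mod_cast this.symm

end

theorem not_mem_pCharSet_dual (m : ℕ) (h3 : ¬ 3 ∣ m) : 3 * m ∉ pCharSet (linMat vec)✶ := by
  rintro ⟨hv, p, hsum, hA⟩
  have hp : Hyp p (3 * m) := ⟨hsum, hA⟩
  have hne : (code p).Nonempty := by
    obtain ⟨x, hx⟩ := p.support_nonempty
    exact ⟨x, hx⟩
  exact core (P1_of hp) (P2_of hp) hne m (card_val hv hp) h3

end Pool.Agent.H.MP_827d9d_co
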