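import Pool.Agent.H.MP_827d9d_co.Neg

/-!
# The matroid itself is represented by a difference matrix
-/

namespace Pool.Agent.H.MP_827d9d_co

open scoped ENNReal
open Real (negMulLog)
open El

section

variable {G : Type} [AddCommGroup G] [Fintype G] [DecidableEq G]

/-- The nonlinear code, with values in the group. -/
def Y (φ : Fin 4 → G → G) (ω : G × (Fin 3 → G)) : El → G
  | base => ω.1
  | rho i s => ω.2 i - φ s ω.1
  | tt j => ω.2 0 - ω.2 j.succ

lemma vec_rho (i : Fin 3) (s : Fin 4) (a : Fin 4 → ℚ) :
    ∑ k, a k * vec (rho i s) k = -(s : ℕ) * a 0 + a i.succ := by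
  fin_cases i <;> simp [vec, Fin.sum_univ_four] <;> ring

lemma vec_tt (j : Fin 2) (a : Fin 4 → ℚ) :
    ∑ k, a k * vec (tt j) k = a 1 - a j.succ.succ := by
  fin_cases j <;> simp [vec, Fin.sum_univ_four] <;> ring

lemma vec_base (a : Fin 4 → ℚ) : ∑ k, a k * vec base k = a 0 := by
  simp [vec, Fin.sum_univ_four]

omit [Fintype G] [DecidableEq G] in
lemma sub_swap (a b c d : G) : a - b = c - d ↔ c - a = d - b := by
  rw [sub_eq_sub_iff_add_eq_add, sub_eq_sub_iff_add_eq_add]
  constructor
  · intro h
    rw [← h, add_comm]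
  · intro h
    rw [h, add_comm]

/-- The agreement set of two codewords is the zero set of a linear functional. -/
lemma agree_functional (φ : Fin 4 → G → G)
    (hφ : ∀ s s', s ≠ s' → Function.Injective fun x => φ s x - φ s' x)
    (ω ω' : G × (Fin 3 → G)) :
    ∃ a : Fin 4 → ℚ, ∀ e, Y φ ω e = Y φ ω' e ↔ ∑ k, a k * vec e k = 0 := by
  let ι : G → ℕ := fun g => (Fintype.equivFin G g : ℕ)
  have hι : Function.Injective ι := by
    intro g g' h
    exact (Fintype.equivFin G).injective (Fin.ext h)
  by_cases h1 : ω.1 = ω'.1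
  · let θ : G → ℚ := fun g => (ι g : ℚ) - (ι 0 : ℚ)
    have hθ : ∀ g g', θ g = θ g' ↔ g = g' := by
      intro g g'
      constructor
      · intro h
        have : (ι g : ℚ) = (ι g' : ℚ) := by simpa [θ] using h
        exact hι (by exact_mod_cast this)
      · rintro rfl; rfl
    have hθ0 : θ 0 = 0 := by simp [θ]
    refine ⟨Fin.cons 0 (fun i => θ (ω'.2 i - ω.2 i)), ?_⟩
    intro e
    cases e with
    | base =>
      rw [vec_base]
      simp [Y, h1]
    | rho i s =>
      rw [vec_rho]
      simp only [Fin.cons_zero, Fin.cons_succ, mul_zero, zero_add, Y]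
      rw [← hθ0, hθ, h1]
      constructor
      · intro h
        have : ω.2 i = ω'.2 i := by simpa using h
        rw [this]; simp
      · intro h
        have : ω'.2 i = ω.2 i := by simpa [sub_eq_zero] using h
        rw [this]
    | tt j =>
      rw [vec_tt]
      have e1 : (Fin.cons 0 (fun i => θ (ω'.2 i - ω.2 i)) : Fin 4 → ℚ) 1 = θ (ω'.2 0 - ω.2 0) := rfl
      rw [e1, Fin.cons_succ, sub_eq_zero, hθ]
      simp only [Y]
      exact sub_swap _ _ _ _
  · let δ : Fin 4 → G := fun s => φ s ω'.1 - φ s ω.1
    have hδ : Function.Injective δ := by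
      intro s s' h
      by_contra hne
      apply h1
      apply hφ s s' hne
      show φ s ω.1 - φ s' ω.1 = φ s ω'.1 - φ s' ω'.1
      have h' : φ s ω'.1 - φ s ω.1 = φ s' ω'.1 - φ s' ω.1 := h
      rw [sub_eq_sub_iff_add_eq_add] at h' ⊢
      rw [add_comm, ← h', add_comm]
    classical
    let θ : G → ℚ := fun g => if h : ∃ s, δ s = g then ((h.choose : ℕ) : ℚ) else 4 + (ι g : ℚ)
    have hθδ : ∀ s, θ (δ s) = ((s : ℕ) : ℚ) := by
      intro s
      have h : ∃ s', δ s' = δ s := ⟨s, rfl⟩
      have : h.choose = s := hδ h.choose_spec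
      simp only [θ, dif_pos h, this]
    have hθ : ∀ g g', θ g = θ g' ↔ g = g' := by
      intro g g'
      constructor
      · intro h
        by_cases hg : ∃ s, δ s = g
        · by_cases hg' : ∃ s, δ s = g'
          · obtain ⟨s, rfl⟩ := hg
            obtain ⟨s', rfl⟩ := hg'
            rw [hθδ, hθδ] at h
            have : s = s' := Fin.ext (by exact_mod_cast h)
            rw [this]
          · obtain ⟨s, rfl⟩ := hg
            rw [hθδ] at h
            simp only [θ, dif_neg hg'] at h
            have h3 : ((s : ℕ) : ℚ) < 4 := by exact_mod_cast s.2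
            have h4 : (0 : ℚ) ≤ (ι g' : ℚ) := by positivity
            linarith
        · by_cases hg' : ∃ s, δ s = g'
          · obtain ⟨s, rfl⟩ := hg'
            rw [hθδ] at h
            simp only [θ, dif_neg hg] at h
            have h3 : ((s : ℕ) : ℚ) < 4 := by exact_mod_cast s.2
            have h4 : (0 : ℚ) ≤ (ι g : ℚ) := by positivity
            linarith
          · simp only [θ, dif_neg hg, dif_neg hg'] at h
            have : (ι g : ℚ) = (ι g' : ℚ) := by linarith
            exact hι (by exact_mod_cast this)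
      · rintro rfl; rfl
    refine ⟨Fin.cons 1 (fun i => θ (ω'.2 i - ω.2 i)), ?_⟩
    intro e
    cases e with
    | base =>
      rw [vec_base]
      simp [Y, h1]
    | rho i s =>
      rw [vec_rho]
      simp only [Fin.cons_zero, Fin.cons_succ, mul_one, Y]
      have : (-((s : ℕ) : ℚ) + θ (ω'.2 i - ω.2 i) = 0) ↔ ω'.2 i - ω.2 i = δ s := by
        rw [← hθ, hθδ]
        constructor
        · intro h; linarith
        · intro h; linarith
      rw [this]
      simp only [δ]
      constructor
      · intro h
        rw [sub_eq_sub_iff_add_eq_add] at h ⊢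
        rw [add_comm (φ s ω'.1), h]
      · intro h
        rw [sub_eq_sub_iff_add_eq_add] at h ⊢
        rw [add_comm (φ s ω'.1)] at h
        exact h.symm
    | tt j =>
      rw [vec_tt]
      have e1 : (Fin.cons 1 (fun i => θ (ω'.2 i - ω.2 i)) : Fin 4 → ℚ) 1 = θ (ω'.2 0 - ω.2 0) := rfl
      rw [e1, Fin.cons_succ, sub_eq_zero, hθ]
      simp only [Y]
      exact sub_swap _ _ _ _

end

end Pool.Agent.H.MP_827d9d_co
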