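import Pool.Agent.H.MP_827d9d_co.Pos

/-!
# Degree of the difference matrix lies in the p-characteristic set
-/

namespace Pool.Agent.H.MP_827d9d_co

open scoped ENNReal
open Real (negMulLog)
open El

lemma span_vec_univ : Submodule.span ℚ (vec '' Set.univ) = ⊤ := by
  rw [eq_top_iff]
  intro x _
  have hx : x = x 0 • vec base + x 1 • vec (rho 0 0) + x 2 • vec (rho 1 0) + x 3 • vec (rho 2 0) := by
    ext k; fin_cases k <;> simp [vec]
  rw [hx]
  have hm : ∀ e, vec e ∈ Submodule.span ℚ (vec '' Set.univ) :=
    fun e => Submodule.subset_span ⟨e, trivial, rfl⟩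
  exact Submodule.add_mem _ (Submodule.add_mem _ (Submodule.add_mem _
    (Submodule.smul_mem _ _ (hm _)) (Submodule.smul_mem _ _ (hm _)))
    (Submodule.smul_mem _ _ (hm _))) (Submodule.smul_mem _ _ (hm _))

section

variable {G : Type} [AddCommGroup G] [Fintype G] [DecidableEq G]

/-- Agreement is closed under the linear closure. -/
lemma agree_of_mem_span (φ : Fin 4 → G → G)
    (hφ : ∀ s s', s ≠ s' → Function.Injective fun x => φ s x - φ s' x)
    {ω ω' : G × (Fin 3 → G)} {A : Set El} (hA : ∀ e ∈ A, Y φ ω e = Y φ ω' e) {e : El}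
    (he : vec e ∈ Submodule.span ℚ (vec '' A)) : Y φ ω e = Y φ ω' e := by
  obtain ⟨a, ha⟩ := agree_functional φ hφ ω ω'
  rw [ha]
  let Φ : (Fin 4 → ℚ) →ₗ[ℚ] ℚ :=
    { toFun := fun x => ∑ k, a k * x k
      map_add' := by intro x y; simp [mul_add, Finset.sum_add_distrib]
      map_smul' := by
        intro c x
        simp only [Pi.smul_apply, smul_eq_mul, RingHom.id_apply, Finset.mul_sum]
        exact Finset.sum_congr rfl fun k _ => by ring }
  have hle : Submodule.span ℚ (vec '' A) ≤ LinearMap.ker Φ := by
    rw [Submodule.span_le]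
    rintro _ ⟨f, hf, rfl⟩
    exact (ha f).1 (hA f hf)
  exact hle he

omit [Fintype G] [DecidableEq G] in
lemma Y_injective (φ : Fin 4 → G → G) {ω ω' : G × (Fin 3 → G)}
    (h : ∀ e, Y φ ω e = Y φ ω' e) : ω = ω' := by
  have h1 : ω.1 = ω'.1 := h base
  refine Prod.ext h1 (funext fun i => ?_)
  have h2 : ω.2 i - φ 0 ω.1 = ω'.2 i - φ 0 ω'.1 := h (rho i 0)
  rw [h1] at h2
  simpa using h2

/-- Restriction to an independent set is uniform. -/
lemma shannon_indep (φ : Fin 4 → G → G)
    (hφ : ∀ s s', s ≠ s' → Function.Injective fun x => φ s x - φ s' x)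
    {I : Set El} (hI : (linMat vec).Indep I) :
    shannon ((PMF.uniformOfFintype (G × (Fin 3 → G))).map fun ω (i : I) => Y φ ω i) =
      Real.log (Fintype.card G) * I.ncard := by
  classical
  obtain ⟨B, hB, hIB⟩ := hI.exists_isBase_superset
  have hBb : (linMat vec).IsBasis B Set.univ := by
    have := hB.isBasis_ground
    rwa [linMat_E] at this
  have hspan : Submodule.span ℚ (vec '' B) = ⊤ := by
    rw [← mem_span_of_isBasis hBb, span_vec_univ]
  have hcardB : B.ncard = 4 := by
    rw [← finrank_span_image (f := vec) hB.indep, hspan, finrank_top]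
    simp
  let _ : Fintype B := Fintype.ofFinite B
  have hcardB' : Fintype.card B = 4 := by
    rw [← Nat.card_eq_fintype_card, Nat.card_coe_set_eq, hcardB]
  -- the bijection with the base coordinates
  let YB : G × (Fin 3 → G) → (B → G) := fun ω i => Y φ ω i
  have hinj : Function.Injective YB := by
    intro ω ω' h
    apply Y_injective φ
    intro e
    refine agree_of_mem_span φ hφ (A := B) (fun f hf => congrFun h ⟨f, hf⟩) ?_
    rw [hspan]; trivial
  have hbij : Function.Bijective YB := by
    rw [Fintype.bijective_iff_injective_and_card]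
    refine ⟨hinj, ?_⟩
    simp only [Fintype.card_prod, Fintype.card_pi, Finset.prod_const, Finset.card_univ,
      Fintype.card_fin, hcardB']
    ring
  let eB := Equiv.ofBijective YB hbij
  set p0 := PMF.uniformOfFintype (G × (Fin 3 → G)) with hp0
  set q := p0.map fun ω (i : I) => Y φ ω i with hq
  -- surjectivity of restriction
  have hsurj : ∀ f : I → G, ∃ ω, (fun i : I => Y φ ω i) = f := by
    intro f
    obtain ⟨ω, hω⟩ := hbij.2 (fun b => if h : (b : El) ∈ I then f ⟨b, h⟩ else 0)
    refine ⟨ω, ?_⟩
    funext i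
    have := congrFun hω ⟨i, hIB i.2⟩
    simp only [YB] at this
    rw [this]
    simp
  have hsupp : q.support = Set.univ := by
    rw [hq, PMF.support_map]
    ext f
    simp only [Set.mem_univ, iff_true]
    obtain ⟨ω, hω⟩ := hsurj f
    exact ⟨ω, by rw [hp0, PMF.support_uniformOfFintype]; trivial, hω⟩
  have hconst : ∀ f f' : I → G, q f = q f' := by
    intro f f'
    -- translation
    let d : B → G := fun b => if h : (b : El) ∈ I then f' ⟨b, h⟩ - f ⟨b, h⟩ else 0
    let σ : (G × (Fin 3 → G)) ≃ (G × (Fin 3 → G)) := (eB.trans (Equiv.addRight d)).trans eB.symm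
    have hσ : ∀ ω, ∀ i : I, Y φ (σ ω) i = Y φ ω i + (f' i - f i) := by
      intro ω i
      have h1 : YB (σ ω) = YB ω + d := by
        show eB (σ ω) = eB ω + d
        simp [σ]
      have := congrFun h1 ⟨i, hIB i.2⟩
      simp only [YB, Pi.add_apply, d] at this
      rw [this]
      simp
    rw [hq, PMF.map_apply, PMF.map_apply]
    conv_rhs => rw [← σ.tsum_eq]
    refine tsum_congr fun ω => ?_
    have hiff : (f = fun i : I => Y φ ω i) ↔ (f' = fun i : I => Y φ (σ ω) i) := by
      constructor
      · intro h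
        funext i
        rw [hσ, congrFun h i]
        simp
      · intro h
        funext i
        have := congrFun h i
        rw [hσ] at this
        have h2 : Y φ ω i = f' i - (f' i - f i) := eq_sub_of_add_eq this.symm
        rw [h2, sub_sub_cancel]
    simp only [hiff, hp0, PMF.uniformOfFintype_apply]
  rw [uniform_support q (fun f f' _ _ => hconst f f'), hsupp, Nat.card_coe_set_eq,
    Set.ncard_univ, Nat.card_fun, Nat.card_eq_fintype_card, Nat.cast_pow, Real.log_pow,
    Nat.card_coe_set_eq]
  ring

theorem mem_pCharSet (φ : Fin 4 → G → G)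
    (hφ : ∀ s s', s ≠ s' → Function.Injective fun x => φ s x - φ s' x)
    (h2 : 2 ≤ Fintype.card G) : Fintype.card G ∈ pCharSet (linMat vec) := by
  classical
  refine ⟨h2, ?_⟩
  let ι : G → ℕ := fun g => (Fintype.equivFin G g : ℕ)
  have hι : Function.Injective ι := by
    intro g g' h
    exact (Fintype.equivFin G).injective (Fin.ext h)
  let X : G × (Fin 3 → G) → El → ℕ := fun ω e => ι (Y φ ω e)
  let p0 := PMF.uniformOfFintype (G × (Fin 3 → G))
  refine ⟨p0.map X, ?_, ?_⟩
  · apply summable_of_hasFiniteSupport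
    refine (Set.finite_range X).subset ?_
    intro x hx
    have : (p0.map X) x ≠ 0 := by
      intro h0
      apply hx
      show negMulLog ((p0.map X) x).toReal = 0
      simp [h0]
    have hx' : x ∈ (p0.map X).support := this
    rw [PMF.support_map] at hx'
    obtain ⟨ω, -, hω⟩ := hx'
    exact ⟨ω, hω⟩
  · intro A
    obtain ⟨I, hI⟩ := (linMat vec).exists_isBasis A (by simp)
    rw [PMF.map_comp]
    have e1 : shannon (p0.map ((fun x (i : A) => x i) ∘ X)) =
        shannon (p0.map fun ω (i : I) => Y φ ω i) := by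
      apply shannon_congr
      intro ω ω'
      constructor
      · intro h
        funext i
        have := congrFun h ⟨i, hI.subset i.2⟩
        exact hι this
      · intro h
        funext i
        show ι (Y φ ω i) = ι (Y φ ω' i)
        congr 1
        refine agree_of_mem_span φ hφ (A := I) (fun f hf => congrFun h ⟨f, hf⟩) ?_
        rw [← mem_span_of_isBasis hI]
        exact Submodule.subset_span ⟨i, i.2, rfl⟩
    show Real.log (Fintype.card G) * (((linMat vec).eRk A).toNat : ℝ) = _
    rw [e1, shannon_indep φ hφ hI.indep, ← hI.encard_eq_eRk]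
    rfl

end

/-- A `(15,4;1)` difference matrix over `ZMod 15`. -/
def dm : Fin 4 → ZMod 15 → ZMod 15
  | 0 => fun _ => 0
  | 1 => fun x => x
  | 2 => ![0, 2, 1, 5, 7, 9, 12, 14, 13, 3, 6, 4, 10, 8, 11]
  | 3 => ![0, 3, 9, 1, 10, 14, 7, 11, 4, 12, 5, 8, 2, 6, 13]

lemma dm_spec : ∀ s s', s ≠ s' → Function.Injective fun x => dm s x - dm s' x := by
  unfold Function.Injective
  decide +kernel

theorem fifteen_mem : 15 ∈ pCharSet (linMat vec) := by
  have h := mem_pCharSet dm dm_spec (by rw [ZMod.card]; norm_num)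
  rwa [ZMod.card] at h

theorem fifteen_not_mem : 15 ∉ pCharSet (linMat vec)✶ :=
  not_mem_pCharSet_dual 5 (by norm_num)

end Pool.Agent.H.MP_827d9d_co
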