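import Mathlib

/-!
The 15 vectors in `ℚ^4` and the abstract properties of a code used in the core argument.
-/

namespace Pool.Agent.H.MP_827d9d_co

/-- The ground set: fifteen elements. -/
inductive El : Type
  | base : El
  | rho (i : Fin 3) (s : Fin 4) : El
  | tt (j : Fin 2) : El
  deriving DecidableEq, Fintype

/-- The vector of an element. -/
def vec : El → (Fin 4 → ℚ)
  | El.base => ![1, 0, 0, 0]
  | El.rho i s => ![-(s : ℕ), if i = 0 then 1 else 0, if i = 1 then 1 else 0, if i = 2 then 1 else 0]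
  | El.tt j => ![0, 1, if j = 0 then -1 else 0, if j = 1 then -1 else 0]

/-- Exchange property of a code, from the linear dependencies of the vectors. -/
def P1 {V : Type} (C : Set (El → V)) : Prop :=
  ∀ (z : El) (Z : Set El), z ∉ Z → vec z ∈ Submodule.span ℚ (vec '' Z) →
    ∀ c ∈ C, ∀ c' ∈ C, ∃ c'' ∈ C, c'' z = c' z ∧ ∀ e, e ∉ Z → e ≠ z → c'' e = c e

/-- Determination property of a code, from the linear functionals. -/
def P2 {V : Type} (C : Set (El → V)) : Prop :=
  ∀ (φ : (Fin 4 → ℚ) →ₗ[ℚ] ℚ) (z : El), φ (vec z) ≠ 0 →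
    ∀ c ∈ C, ∀ c' ∈ C, (∀ e, e ≠ z → φ (vec e) ≠ 0 → c e = c' e) → c z = c' z

end Pool.Agent.H.MP_827d9d_co
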